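import Mathlib

set_option autoImplicit false

namespace Pool.Agent.H2.LFree

/-- `S` is `L`-free for the equation `a_1 x_1 + … + a_k x_k = 0`: no solution has all its entries
(not necessarily distinct) in `S`. -/
def LFree {k : ℕ} (a : Fin k → ℤ) (S : Finset ℤ) : Prop :=
  ∀ x : Fin k → ℤ, (∀ i, x i ∈ S) → ∑ i, a i * x i ≠ 0

/-- `f_L(A)`: the largest size of an `L`-free subset of `A`. -/
noncomputable def maxFree {k : ℕ} (a : Fin k → ℤ) (A : Finset ℤ) : ℕ :=
  sSup {n : ℕ | ∃ S : Finset ℤ, S ⊆ A ∧ LFree a S ∧ S.card = n}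

/-- `κ(L)`: the infimum of `f_L(A) / |A|` over all finite nonempty sets `A` of nonzero integers. -/
noncomputable def kappa {k : ℕ} (a : Fin k → ℤ) : ℝ :=
  sInf {r : ℝ | ∃ A : Finset ℤ, A.Nonempty ∧ (0 : ℤ) ∉ A ∧ r = (maxFree a A : ℝ) / (A.card : ℝ)}

/-- The decision problem `ε`-`L`-Free Subset: the list `l` enumerates (without repetition) a finite set
`A` of nonzero integers which has an `L`-free subset with at least `ε |A|` elements. -/
def EpsFreeSubset {k : ℕ} (a : Fin k → ℤ) (ε : ℚ) (l : List ℤ) : Prop :=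
  l.Nodup ∧ (0 : ℤ) ∉ l ∧
    ∃ S : Finset ℤ, S ⊆ l.toFinset ∧ LFree a S ∧ ε * (l.length : ℚ) ≤ (S.card : ℚ)

end Pool.Agent.H2.LFree
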