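import Mathlib
import Pool.Agent.H2.LFree.Defs

set_option autoImplicit false

namespace Pool.Agent.H2.LFree

variable {k : ℕ}

lemma le_maxFree {a : Fin k → ℤ} {A S : Finset ℤ} (hS : S ⊆ A) (hf : LFree a S) :
    S.card ≤ maxFree a A := by
  unfold maxFree
  apply le_csSup
  · refine ⟨A.card, ?_⟩
    rintro n ⟨S', h1, -, rfl⟩
    exact Finset.card_le_card h1
  · exact ⟨S, hS, hf, rfl⟩

/-- a set of labelled integers without a solution that holds label by label -/
def CFree (a : Fin k → ℤ) (S : Finset (ℕ × ℤ)) : Prop :=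
  ∀ x : Fin k → ℕ × ℤ, (∀ l, x l ∈ S) → ∃ r, ∑ l, a l * (if (x l).1 = r then (x l).2 else 0) ≠ 0

lemma rel_perm (a : Fin k → ℤ) (σ : Equiv.Perm ℕ) (x : Fin k → ℕ × ℤ)
    (h : ∃ r, ∑ l, a l * (if σ (x l).1 = r then (x l).2 else 0) ≠ 0) :
    ∃ r, ∑ l, a l * (if (x l).1 = r then (x l).2 else 0) ≠ 0 := by
  obtain ⟨r, hr⟩ := h
  refine ⟨σ.symm r, ?_⟩
  have : ∀ l, ((x l).1 = σ.symm r) ↔ (σ (x l).1 = r) := fun l => Equiv.eq_symm_apply σ
  simp only [this]
  exact hr

lemma CFree.mono {a : Fin k → ℤ} {S S' : Finset (ℕ × ℤ)} (h : CFree a S) (hs : S' ⊆ S) :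
    CFree a S' := fun x hx => h x (fun l => hs (hx l))

open Classical in
/-- largest size of a free set over `R` copies of `B` -/
noncomputable def gR (a : Fin k → ℤ) (B : Finset ℤ) (R : ℕ) : ℕ :=
  ((Finset.range R ×ˢ B).powerset.filter (fun S => CFree a S)).sup Finset.card

lemma le_gR {a : Fin k → ℤ} {B : Finset ℤ} {R : ℕ} {S : Finset (ℕ × ℤ)}
    (hS : S ⊆ Finset.range R ×ˢ B) (hf : CFree a S) : S.card ≤ gR a B R := by
  classical
  unfold gR
  apply Finset.le_sup (f := Finset.card)
  rw [Finset.mem_filter, Finset.mem_powerset]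
  exact ⟨hS, hf⟩

lemma exists_gR (a : Fin (k + 1) → ℤ) (B : Finset ℤ) (R : ℕ) :
    ∃ S ⊆ Finset.range R ×ˢ B, CFree a S ∧ S.card = gR a B R := by
  classical
  have hne : ((Finset.range R ×ˢ B).powerset.filter (fun S => CFree a S)).Nonempty := by
    refine ⟨∅, ?_⟩
    rw [Finset.mem_filter, Finset.mem_powerset]
    refine ⟨Finset.empty_subset _, ?_⟩
    intro x hx
    exact absurd (hx 0) (Finset.notMem_empty _)
  obtain ⟨S, hS, hc⟩ := Finset.exists_mem_eq_sup _ hne Finset.card
  rw [Finset.mem_filter, Finset.mem_powerset] at hS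
  refine ⟨S, hS.1, hS.2, ?_⟩
  unfold gR
  exact hc.symm

lemma gR_mono (a : Fin (k + 1) → ℤ) (B : Finset ℤ) (R : ℕ) : gR a B R ≤ gR a B (R + 1) := by
  obtain ⟨S, h1, h2, h3⟩ := exists_gR a B R
  rw [← h3]
  apply le_gR _ h2
  refine h1.trans ?_
  apply Finset.product_subset_product_left
  intro x hx
  rw [Finset.mem_range] at hx ⊢
  omega

/-- the integers with label `r` -/
def fib (S : Finset (ℕ × ℤ)) (r : ℕ) : Finset ℤ := (S.filter (fun y => y.1 = r)).image Prod.snd

lemma mem_fib {S : Finset (ℕ × ℤ)} {r : ℕ} {b : ℤ} : b ∈ fib S r ↔ (r, b) ∈ S := by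
  unfold fib
  rw [Finset.mem_image]
  constructor
  · rintro ⟨⟨r', b'⟩, h, rfl⟩
    rw [Finset.mem_filter] at h
    obtain ⟨h1, h2⟩ := h
    simp only at h2
    subst h2
    exact h1
  · intro h
    exact ⟨(r, b), Finset.mem_filter.mpr ⟨h, rfl⟩, rfl⟩

lemma card_fib (S : Finset (ℕ × ℤ)) (r : ℕ) : (S.filter (fun y => y.1 = r)).card = (fib S r).card := by
  unfold fib
  rw [Finset.card_image_of_injOn]
  rintro ⟨r1, b1⟩ h1 ⟨r2, b2⟩ h2 h
  rw [Finset.mem_coe, Finset.mem_filter] at h1 h2
  simp only at h h1 h2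
  rw [h, h1.2, h2.2]

lemma CFree.fib {a : Fin k → ℤ} {S : Finset (ℕ × ℤ)} (h : CFree a S) (r : ℕ) :
    LFree a (fib S r) := by
  intro x hx h0
  obtain ⟨r', hr'⟩ := h (fun l => (r, x l)) (fun l => mem_fib.mp (hx l))
  by_cases hrr : r = r'
  · subst hrr
    apply hr'
    simpa using h0
  · apply hr'
    simp [hrr]

lemma gR_step_le (a : Fin (k + 1) → ℤ) (B : Finset ℤ) (R : ℕ) :
    gR a B (R + 1) ≤ gR a B R + maxFree a B := by
  obtain ⟨S, h1, h2, h3⟩ := exists_gR a B (R + 1)
  have hsplit := Finset.card_filter_add_card_filter_not (s := S) (fun y => y.1 = R)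
  have hA : (S.filter (fun y => y.1 = R)).card ≤ maxFree a B := by
    rw [card_fib]
    apply le_maxFree _ (h2.fib R)
    intro b hb
    have := h1 (mem_fib.mp hb)
    rw [Finset.mem_product] at this
    exact this.2
  have hB : (S.filter (fun y => ¬ y.1 = R)).card ≤ gR a B R := by
    apply le_gR _ (h2.mono (Finset.filter_subset _ _))
    intro y hy
    rw [Finset.mem_filter] at hy
    have := h1 hy.1
    rw [Finset.mem_product, Finset.mem_range] at this ⊢
    refine ⟨?_, this.2⟩
    have := this.1
    have := hy.2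
    omega
  omega

lemma gR_convex (a : Fin (k + 1) → ℤ) (B : Finset ℤ) (R : ℕ) (hR : 2 ^ B.card * (k + 1) ≤ R) :
    gR a B (R + 1) + gR a B (R + 1) ≤ gR a B (R + 2) + gR a B R := by
  classical
  obtain ⟨S, h1, h2, h3⟩ := exists_gR a B (R + 1)
  have hlab : ∀ y ∈ S, y.1 < R + 1 ∧ y.2 ∈ B := by
    intro y hy
    have := h1 hy
    rw [Finset.mem_product, Finset.mem_range] at this
    exact this
  -- pigeonhole
  obtain ⟨X, hX, hcard⟩ := Finset.exists_lt_card_fiber_of_mul_lt_card_of_maps_to
    (s := Finset.range (R + 1)) (t := B.powerset) (f := fun r => fib S r) (n := k + 1)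
    (by
      intro r _
      rw [Finset.mem_powerset]
      intro b hb
      exact (hlab _ (mem_fib.mp hb)).2)
    (by rw [Finset.card_powerset, Finset.card_range]; omega)
  set Q := (Finset.range (R + 1)).filter (fun r => fib S r = X) with hQ
  have hQmem : ∀ r, r ∈ Q ↔ r < R + 1 ∧ fib S r = X := by
    intro r; rw [hQ, Finset.mem_filter, Finset.mem_range]
  have hXB : X ⊆ B := Finset.mem_powerset.mp hX
  -- adding a copy
  have hadd : gR a B (R + 1) + X.card ≤ gR a B (R + 2) := by
    have hdisj : Disjoint S ({R + 1} ×ˢ X) := by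
      rw [Finset.disjoint_left]
      intro y hy hy'
      rw [Finset.mem_product, Finset.mem_singleton] at hy'
      have := (hlab y hy).1
      omega
    have hc : (S ∪ ({R + 1} ×ˢ X)).card = gR a B (R + 1) + X.card := by
      rw [Finset.card_union_of_disjoint hdisj, h3, Finset.card_product, Finset.card_singleton, one_mul]
    rw [← hc]
    apply le_gR
    · intro y hy
      rw [Finset.mem_union] at hy
      rw [Finset.mem_product, Finset.mem_range]
      rcases hy with hy | hy
      · have := hlab y hy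
        exact ⟨by omega, this.2⟩
      · rw [Finset.mem_product, Finset.mem_singleton] at hy
        exact ⟨by omega, hXB hy.2⟩
    · intro x hx
      -- labels used
      set U := Finset.univ.image (fun l => (x l).1) with hU
      have hUcard : U.card ≤ k + 1 := by
        refine Finset.card_image_le.trans ?_
        rw [Finset.card_univ, Fintype.card_fin]
      obtain ⟨r', hr'Q, hr'U⟩ : ∃ r' ∈ Q, r' ∉ U := by
        by_contra hno
        push Not at hno
        have : Q ⊆ U := hno
        have := Finset.card_le_card this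
        omega
      rw [hQmem] at hr'Q
      apply rel_perm a (Equiv.swap (R + 1) r') x
      have key := h2 (fun l => (Equiv.swap (R + 1) r' (x l).1, (x l).2)) ?_
      · exact key
      · intro l
        have hl := hx l
        rw [Finset.mem_union] at hl
        have hne : (x l).1 ≠ r' := by
          intro h
          apply hr'U
          rw [hU, Finset.mem_image]
          exact ⟨l, Finset.mem_univ _, h⟩
        rcases hl with hl | hl
        · have h4 := (hlab _ hl).1
          rw [Equiv.swap_apply_of_ne_of_ne (by omega) hne]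
          exact hl
        · rw [Finset.mem_product, Finset.mem_singleton] at hl
          rw [hl.1, Equiv.swap_apply_left]
          apply mem_fib.mp
          rw [hr'Q.2]
          exact hl.2
  -- removing a copy
  have hrem : gR a B (R + 1) ≤ gR a B R + X.card := by
    obtain ⟨r0, hr0⟩ : Q.Nonempty := by
      rw [← Finset.card_pos]; omega
    rw [hQmem] at hr0
    have hsplit := Finset.card_filter_add_card_filter_not (s := S) (fun y => y.1 = r0)
    rw [card_fib, hr0.2] at hsplit
    have hB : (S.filter (fun y => ¬ y.1 = r0)).card ≤ gR a B R := by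
      have hinj : Function.Injective (fun y : ℕ × ℤ => (Equiv.swap r0 R y.1, y.2)) := by
        rintro ⟨r1, b1⟩ ⟨r2, b2⟩ h
        simp only [Prod.mk.injEq] at h
        rw [(Equiv.swap r0 R).injective h.1, h.2]
      rw [← Finset.card_image_of_injective _ hinj]
      apply le_gR
      · intro y hy
        rw [Finset.mem_image] at hy
        obtain ⟨z, hz, rfl⟩ := hy
        rw [Finset.mem_filter] at hz
        rw [Finset.mem_product, Finset.mem_range]
        have h5 := hlab z hz.1
        refine ⟨?_, h5.2⟩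
        by_cases hzR : z.1 = R
        · simp only [hzR, Equiv.swap_apply_right]
          have : z.1 ≠ r0 := hz.2
          omega
        · simp only
          rw [Equiv.swap_apply_of_ne_of_ne hz.2 hzR]
          omega
      · intro x hx
        apply rel_perm a (Equiv.swap r0 R) x
        have key := h2 (fun l => (Equiv.swap r0 R (x l).1, (x l).2)) ?_
        · exact key
        · intro l
          have hl := hx l
          rw [Finset.mem_image] at hl
          obtain ⟨z, hz, hzx⟩ := hl
          rw [← hzx]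
          simp only [Equiv.swap_apply_self]
          exact (Finset.mem_filter.mp hz).1
    omega
  omega

/-- `gR` is eventually an affine function of the number of copies -/
lemma gR_affine (a : Fin (k + 1) → ℤ) (B : Finset ℤ) :
    ∃ R0 g0 γ : ℕ, γ ≤ maxFree a B ∧ ∀ r, gR a B (R0 + r) = g0 + γ * r := by
  obtain ⟨R1, hR1⟩ : ∃ R1, 2 ^ B.card * (k + 1) ≤ R1 := ⟨_, le_rfl⟩
  set d : ℕ → ℕ := fun r => gR a B (R1 + r + 1) - gR a B (R1 + r) with hd
  have hdle : ∀ r, d r ≤ maxFree a B := by
    intro r
    have := gR_step_le a B (R1 + r)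
    simp only [hd]
    omega
  have hdmono : ∀ r, d r ≤ d (r + 1) := by
    intro r
    have h1 := gR_convex a B (R1 + r) (by omega)
    have h2 := gR_mono a B (R1 + r)
    have h3 := gR_mono a B (R1 + r + 1)
    simp only [hd]
    have e1 : R1 + (r + 1) + 1 = R1 + r + 2 := by ring
    have e2 : R1 + (r + 1) = R1 + r + 1 := by ring
    rw [e1, e2]
    have e3 : R1 + r + 1 + 1 = R1 + r + 2 := by ring
    rw [e3] at h3
    omega
  obtain ⟨r0, hr0⟩ : ∃ r0, ∀ r, d r ≤ d r0 := by
    have hne : (Set.range d).Nonempty := ⟨d 0, 0, rfl⟩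
    have hbd : BddAbove (Set.range d) := by
      refine ⟨maxFree a B, ?_⟩
      rintro _ ⟨r, rfl⟩
      exact hdle r
    obtain ⟨r0, hr0⟩ := Nat.sSup_mem hne hbd
    refine ⟨r0, fun r => ?_⟩
    rw [hr0]
    exact le_csSup hbd ⟨r, rfl⟩
  have hmono := monotone_nat_of_le_succ hdmono
  refine ⟨R1 + r0, gR a B (R1 + r0), d r0, hdle r0, ?_⟩
  intro r
  induction r with
  | zero => simp
  | succ r ih =>
    have h1 : d (r0 + r) = d r0 := le_antisymm (hr0 _) (hmono (by omega))
    have h2 := gR_mono a B (R1 + (r0 + r))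
    simp only [hd] at h1
    rw [← add_assoc (R1) r0 r] at h1 h2
    have e : R1 + r0 + (r + 1) = R1 + r0 + r + 1 := by ring
    rw [e]
    have h3 : gR a B (R1 + r0 + r + 1) = gR a B (R1 + r0 + r) + d r0 := by
      simp only [hd]
      omega
    rw [h3, ih]
    ring

end Pool.Agent.H2.LFree
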