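import Mathlib
import Pool.Agent.H2.LFree.Defs

set_option autoImplicit false

namespace Pool.Agent.H2.LFree

/-- Codes for the integers of the constructed instance. -/
inductive El (m : ℕ) : Type
  | N (u : ℕ) : El m
  | P (i : ℕ) (j : Fin m) : El m
  | W (i : ℕ) : El m
  | F (i : ℕ) : El m
  | B (r : ℕ) (b : ℤ) : El m
  deriving DecidableEq

variable {m : ℕ}

/-- coefficient number `j + 3` -/
def tl (a : Fin (m + 3) → ℤ) (j : Fin m) : ℤ := a ⟨j.val + 3, by omega⟩

/-- coordinates of the vertex part -/
def cV (a : Fin (m + 3) → ℤ) (E : ℕ → ℕ × ℕ) : El m → ℕ → ℤ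
  | El.N u', u => if u' = u then a 2 else 0
  | El.W i, u => -((if (E i).1 = u then a 0 else 0) + (if (E i).2 = u then a 1 else 0))
  | El.P _ _, _ => 0
  | El.F _, _ => 0
  | El.B _ _, _ => 0

/-- coordinates of the private part -/
def cP (a : Fin (m + 3) → ℤ) : El m → ℕ → Fin m → ℤ
  | El.P i' j', i, j => if i' = i ∧ j' = j then a 2 else 0
  | El.W i', i, j => if i' = i then -(tl a j) else 0
  | El.N _, _, _ => 0
  | El.F _, _, _ => 0
  | El.B _ _, _, _ => 0

/-- element of the gadget part -/
def isG : El m → Prop
  | El.N _ => True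
  | El.P _ _ => True
  | El.W _ => True
  | El.F _ => False
  | El.B _ _ => False

/-- the private elements of gadget `i` together with `W i` -/
def gp (m i : ℕ) : Finset (El m) := insert (El.W i) (Finset.univ.image (El.P i))

lemma card_gp (i : ℕ) : (gp m i).card = m + 1 := by
  unfold gp
  rw [Finset.card_insert_of_notMem, Finset.card_image_of_injective, Finset.card_univ, Fintype.card_fin]
  · intro j j' h
    injection h
  · intro h
    rw [Finset.mem_image] at h
    obtain ⟨j, -, hj⟩ := h
    cases hj

lemma disj_gp {i i' : ℕ} (h : i ≠ i') : Disjoint (gp m i) (gp m i') := by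
  rw [Finset.disjoint_left]
  intro y hy hy'
  unfold gp at hy hy'
  rw [Finset.mem_insert, Finset.mem_image] at hy hy'
  rcases hy with rfl | ⟨j, -, rfl⟩ <;> rcases hy' with hy' | ⟨j', -, hy'⟩ <;>
    simp_all

lemma N_notMem_gp (w i : ℕ) : El.N w ∉ gp m i := by
  unfold gp
  simp

/-- Key lemma on relations between gadget elements. -/
lemma gadget_key {a : Fin (m + 3) → ℤ} (ha : ∀ i, a i ≠ 0) (h01 : a 0 + a 1 ≠ 0) {E : ℕ → ℕ × ℕ}
    {Y : Finset (El m)} {c : El m → ℤ} (hc : ∀ y ∈ Y, c y ≠ 0) (hG : ∀ y ∈ Y, isG y)
    (hlt : ∀ i, El.W i ∈ Y → (E i).1 < (E i).2)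
    (hinj : ∀ i i', El.W i ∈ Y → El.W i' ∈ Y → E i = E i' → i = i')
    (hcard : Y.card ≤ m + 3) (hsum : ∑ y ∈ Y, c y ≠ 0)
    (hV : ∀ u, ∑ y ∈ Y, c y * cV a E y u = 0) (hP : ∀ i j, ∑ y ∈ Y, c y * cP a y i j = 0) :
    ∃ i, El.W i ∈ Y ∧ El.N (E i).1 ∈ Y ∧ El.N (E i).2 ∈ Y ∧ ∀ j, El.P i j ∈ Y := by
  have ha2 : a 2 ≠ 0 := ha 2
  -- private partners
  have hpart : ∀ i, El.W i ∈ Y → ∀ j, El.P i j ∈ Y := by
    intro i hi j
    by_contra hn
    have h1 := hP i j
    rw [Finset.sum_eq_single (El.W i)] at h1
    · have h2 : cP a (El.W i) i j = -(tl a j) := by simp [cP]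
      rw [h2] at h1
      have h3 : tl a j ≠ 0 := ha _
      have h4 := hc _ hi
      rcases mul_eq_zero.mp h1 with h | h
      · exact h4 h
      · exact h3 (neg_eq_zero.mp h)
    · intro y hy hyne
      cases y with
      | N u => simp [cP]
      | F i' => simp [cP]
      | B r b => simp [cP]
      | P i' j' =>
        have : ¬ (i' = i ∧ j' = j) := by
          rintro ⟨rfl, rfl⟩; exact hn hy
        simp [cP, this]
      | W i' =>
        have : i' ≠ i := by rintro rfl; exact hyne rfl
        simp [cP, this]
    · intro h; exact absurd hi h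
  -- vertices touched exactly once
  have hvert : ∀ i w, El.W i ∈ Y → cV a E (El.W i) w ≠ 0 →
      (∀ i', El.W i' ∈ Y → i' ≠ i → cV a E (El.W i') w = 0) → El.N w ∈ Y := by
    intro i w hi hne hoth
    by_contra hn
    have h1 := hV w
    rw [Finset.sum_eq_single (El.W i)] at h1
    · rcases mul_eq_zero.mp h1 with h | h
      · exact hc _ hi h
      · exact hne h
    · intro y hy hyne
      cases y with
      | N u =>
        have : u ≠ w := by rintro rfl; exact hn hy
        simp [cV, this]
      | F i' => simp [cV]
      | B r b => simp [cV]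
      | P i' j' => simp [cV]
      | W i' =>
        have : i' ≠ i := by rintro rfl; exact hyne rfl
        rw [hoth i' hy this, mul_zero]
    · intro h; exact absurd hi h
  -- there is a W
  have hW : ∃ i, El.W i ∈ Y := by
    by_contra hno
    push Not at hno
    apply hsum
    apply Finset.sum_eq_zero
    intro y hy
    exfalso
    cases y with
    | W i => exact hno i hy
    | F i => exact hG _ hy
    | B r b => exact hG _ hy
    | N u =>
      have h1 := hV u
      rw [Finset.sum_eq_single (El.N u)] at h1
      · simp [cV, ha2, hc _ hy] at h1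
      · intro z hz hzne
        cases z with
        | N u' =>
          have : u' ≠ u := by rintro rfl; exact hzne rfl
          simp [cV, this]
        | W i => exact absurd hz (hno i)
        | P i j => simp [cV]
        | F i => simp [cV]
        | B r b => simp [cV]
      · intro h; exact absurd hy h
    | P i j =>
      have h1 := hP i j
      rw [Finset.sum_eq_single (El.P i j)] at h1
      · simp [cP, ha2, hc _ hy] at h1
      · intro z hz hzne
        cases z with
        | P i' j' =>
          have : ¬ (i' = i ∧ j' = j) := by rintro ⟨rfl, rfl⟩; exact hzne rfl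
          simp [cP, this]
        | W i => exact absurd hz (hno i)
        | N u => simp [cP]
        | F i => simp [cP]
        | B r b => simp [cP]
      · intro h; exact absurd hy h
  obtain ⟨i, hi⟩ := hW
  have hgp : ∀ i, El.W i ∈ Y → gp m i ⊆ Y := by
    intro i hi y hy
    unfold gp at hy
    rw [Finset.mem_insert, Finset.mem_image] at hy
    rcases hy with rfl | ⟨j, -, rfl⟩
    · exact hi
    · exact hpart i hi j
  -- uniqueness
  have huniq : ∀ i', El.W i' ∈ Y → i' = i := by
    intro i' hi'
    by_contra hne
    by_cases h3 : ∃ i'', El.W i'' ∈ Y ∧ i'' ≠ i ∧ i'' ≠ i'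
    · obtain ⟨i'', hi'', hne1, hne2⟩ := h3
      have hsub : gp m i ∪ gp m i' ∪ gp m i'' ⊆ Y :=
        Finset.union_subset (Finset.union_subset (hgp i hi) (hgp i' hi')) (hgp i'' hi'')
      have hcard2 : (gp m i ∪ gp m i' ∪ gp m i'').card = 3 * (m + 1) := by
        rw [Finset.card_union_of_disjoint, Finset.card_union_of_disjoint, card_gp, card_gp, card_gp]
        · ring
        · exact disj_gp (Ne.symm hne)
        · rw [Finset.disjoint_union_left]
          exact ⟨disj_gp (Ne.symm hne1), disj_gp (Ne.symm hne2)⟩
      have hle := Finset.card_le_card hsub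
      have hm : m = 0 := by omega
      subst hm
      have hYeq : gp 0 i ∪ gp 0 i' ∪ gp 0 i'' = Y := by
        apply Finset.eq_of_subset_of_card_le hsub
        omega
      have hall : ∀ y ∈ Y, ∃ l, y = El.W l := by
        intro y hy
        rw [← hYeq] at hy
        unfold gp at hy
        simp only [Finset.univ_eq_empty, Finset.image_empty, Finset.mem_union, Finset.mem_insert,
          Finset.notMem_empty, or_false] at hy
        rcases hy with (rfl | rfl) | rfl
        exacts [⟨_, rfl⟩, ⟨_, rfl⟩, ⟨_, rfl⟩]
      -- sum of all vertex coordinates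
      obtain ⟨n, hn⟩ : ∃ n, ∀ l, El.W l ∈ Y → (E l).1 < n ∧ (E l).2 < n := by
        refine ⟨(∑ y ∈ Y, (match y with | El.W l => (E l).1 + (E l).2 | _ => 0)) + 1, ?_⟩
        intro l hl
        have := Finset.single_le_sum (f := fun y : El 0 => (match y with | El.W l => (E l).1 + (E l).2 | _ => 0))
          (fun _ _ => Nat.zero_le _) hl
        simp only at this
        omega
      have htot : ∑ u ∈ Finset.range n, ∑ y ∈ Y, c y * cV a E y u = 0 :=
        Finset.sum_eq_zero (fun u _ => hV u)
      rw [Finset.sum_comm] at htot
      have heach : ∀ y ∈ Y, ∑ u ∈ Finset.range n, c y * cV a E y u = c y * (-(a 0 + a 1)) := by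
        intro y hy
        obtain ⟨l, rfl⟩ := hall y hy
        obtain ⟨h1, h2⟩ := hn l hy
        rw [← Finset.mul_sum]
        congr 1
        simp only [cV]
        rw [Finset.sum_neg_distrib, Finset.sum_add_distrib, Finset.sum_ite_eq, Finset.sum_ite_eq,
          if_pos (Finset.mem_range.mpr h1), if_pos (Finset.mem_range.mpr h2)]
      rw [Finset.sum_congr rfl heach, ← Finset.sum_mul] at htot
      rcases mul_eq_zero.mp htot with h | h
      · exact hsum h
      · exact h01 (neg_eq_zero.mp h)
    · push Not at h3
      have hoth : ∀ l, El.W l ∈ Y → l = i ∨ l = i' := by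
        intro l hl
        by_cases h : l = i
        · exact Or.inl h
        · exact Or.inr (h3 l hl h)
      -- two vertices
      have two : ∃ w1 w2, w1 ≠ w2 ∧ El.N w1 ∈ Y ∧ El.N w2 ∈ Y := by
        have hl1 := hlt i hi
        have hl2 := hlt i' hi'
        have hEne : E i ≠ E i' := fun h => hne (hinj i i' hi hi' h).symm
        have key1 : ∀ w, cV a E (El.W i) w ≠ 0 → cV a E (El.W i') w = 0 → El.N w ∈ Y := by
          intro w h1 h2
          apply hvert i w hi h1
          intro l hl hli
          rcases hoth l hl with rfl | rfl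
          · exact absurd rfl hli
          · exact h2
        have key2 : ∀ w, cV a E (El.W i') w ≠ 0 → cV a E (El.W i) w = 0 → El.N w ∈ Y := by
          intro w h1 h2
          apply hvert i' w hi' h1
          intro l hl hli
          rcases hoth l hl with rfl | rfl
          · exact h2
          · exact absurd rfl hli
        obtain ⟨u1, v1⟩ : ∃ u v, E i = (u, v) := ⟨_, _, rfl⟩
        obtain ⟨v1, he1⟩ := v1
        obtain ⟨u2, v2, he2⟩ : ∃ u v, E i' = (u, v) := ⟨_, _, rfl⟩
        simp only [cV, he1, he2] at key1 key2 hl1 hl2
        have a0 := ha 0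
        have a1 := ha 1
        rw [he1, he2] at hEne
        have hEne' : ¬ (u1 = u2 ∧ v1 = v2) := by
          rintro ⟨rfl, rfl⟩; exact hEne rfl
        by_cases hvv : v1 = v2
        · have huu : u1 ≠ u2 := fun h => hEne' ⟨h, hvv⟩
          refine ⟨u1, u2, huu, key1 u1 ?_ ?_, key2 u2 ?_ ?_⟩
          · rw [if_pos rfl, if_neg (by omega)]; simpa using a0
          · rw [if_neg (by omega), if_neg (by omega)]; simp
          · rw [if_pos rfl, if_neg (by omega)]; simpa using a0
          · rw [if_neg (by omega), if_neg (by omega)]; simp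
        · by_cases huu : u1 = u2
          · refine ⟨v1, v2, hvv, key1 v1 ?_ ?_, key2 v2 ?_ ?_⟩
            · rw [if_neg (by omega), if_pos rfl]; simpa using a1
            · rw [if_neg (by omega), if_neg (by omega)]; simp
            · rw [if_neg (by omega), if_pos rfl]; simpa using a1
            · rw [if_neg (by omega), if_neg (by omega)]; simp
          · by_cases huv : u1 = v2
            · refine ⟨v1, u2, by omega, key1 v1 ?_ ?_, key2 u2 ?_ ?_⟩
              · rw [if_neg (by omega), if_pos rfl]; simpa using a1
              · rw [if_neg (by omega), if_neg (by omega)]; simp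
              · rw [if_pos rfl, if_neg (by omega)]; simpa using a0
              · rw [if_neg (by omega), if_neg (by omega)]; simp
            · by_cases hvu : v1 = u2
              · refine ⟨u1, v2, by omega, key1 u1 ?_ ?_, key2 v2 ?_ ?_⟩
                · rw [if_pos rfl, if_neg (by omega)]; simpa using a0
                · rw [if_neg (by omega), if_neg (by omega)]; simp
                · rw [if_neg (by omega), if_pos rfl]; simpa using a1
                · rw [if_neg (by omega), if_neg (by omega)]; simp
              · refine ⟨u1, v1, by omega, key1 u1 ?_ ?_, key1 v1 ?_ ?_⟩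
                · rw [if_pos rfl, if_neg (by omega)]; simpa using a0
                · rw [if_neg (by omega), if_neg (by omega)]; simp
                · rw [if_neg (by omega), if_pos rfl]; simpa using a1
                · rw [if_neg (by omega), if_neg (by omega)]; simp
      obtain ⟨w1, w2, hw, hN1, hN2⟩ := two
      have hsub : gp m i ∪ gp m i' ∪ {El.N w1, El.N w2} ⊆ Y := by
        refine Finset.union_subset (Finset.union_subset (hgp i hi) (hgp i' hi')) ?_
        intro y hy
        rw [Finset.mem_insert, Finset.mem_singleton] at hy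
        rcases hy with rfl | rfl
        exacts [hN1, hN2]
      have hcard2 : (gp m i ∪ gp m i' ∪ {El.N w1, El.N w2}).card = 2 * (m + 1) + 2 := by
        rw [Finset.card_union_of_disjoint, Finset.card_union_of_disjoint, card_gp, card_gp, Finset.card_pair]
        · ring
        · intro h; injection h with h; exact hw h
        · exact disj_gp (Ne.symm hne)
        · rw [Finset.disjoint_right]
          intro y hy
          rw [Finset.mem_insert, Finset.mem_singleton] at hy
          rw [Finset.mem_union]
          rcases hy with rfl | rfl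
          · exact fun h => h.elim (N_notMem_gp w1 i) (N_notMem_gp w1 i')
          · exact fun h => h.elim (N_notMem_gp w2 i) (N_notMem_gp w2 i')
      have hle := Finset.card_le_card hsub
      omega
  have hl := hlt i hi
  refine ⟨i, hi, ?_, ?_, hpart i hi⟩
  · apply hvert i _ hi
    · simp only [cV, if_pos]
      rw [if_neg (by omega)]
      simpa using ha 0
    · intro i' hi' hne
      exact absurd (huniq i' hi') hne
  · apply hvert i _ hi
    · simp only [cV]
      rw [if_neg (by omega)]
      simpa using ha 1
    · intro i' hi' hne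
      exact absurd (huniq i' hi') hne

end Pool.Agent.H2.LFree
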