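import Mathlib
import Pool.Agent.H2.LFree.Gadget
import Pool.Agent.H2.LFree.Copies

set_option autoImplicit false

namespace Pool.Agent.H2.LFree

variable {m : ℕ}

/-- coordinates of the filler part -/
def cF : El m → ℕ → ℤ
  | El.F i', i => if i' = i then 1 else 0
  | El.P _ _, _ => 0
  | El.W _, _ => 0
  | El.N _, _ => 0
  | El.B _ _, _ => 0

/-- coordinates of the copies part -/
def cB : El m → ℕ → ℤ
  | El.B r' b, r => if r' = r then b else 0
  | El.P _ _, _ => 0
  | El.W _, _ => 0
  | El.N _, _ => 0
  | El.F _, _ => 0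

/-- membership in the code set of the instance -/
def InA (n e Fn R : ℕ) (B : Finset ℤ) : El m → Prop
  | El.N u => u < n
  | El.P i _ => i < e
  | El.W i => i < e
  | El.F i => i < Fn
  | El.B r b => r < R ∧ b ∈ B

/-- the equation holds coordinate by coordinate -/
def Rel (a : Fin (m + 3) → ℤ) (E : ℕ → ℕ × ℕ) (x : Fin (m + 3) → El m) : Prop :=
  (∀ u, ∑ l, a l * cV a E (x l) u = 0) ∧ (∀ i j, ∑ l, a l * cP a (x l) i j = 0) ∧
  (∀ i, ∑ l, a l * cF (x l) i = 0) ∧ (∀ r, ∑ l, a l * cB (x l) r = 0)

/-- no solution coordinate by coordinate -/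
def AFree (a : Fin (m + 3) → ℤ) (E : ℕ → ℕ × ℕ) (T : Finset (El m)) : Prop :=
  ∀ x : Fin (m + 3) → El m, (∀ l, x l ∈ T) → ¬ Rel a E x

open Classical in
lemma regroup {ι : Type} [Fintype ι] (x : ι → El m) (a : ι → ℤ) (p : El m → Prop)
    (φ : El m → ℤ) :
    ∑ y ∈ (Finset.univ.image x).filter (fun y => p y ∧ (∑ l ∈ Finset.univ.filter (fun l => x l = y), a l) ≠ 0),
      (∑ l ∈ Finset.univ.filter (fun l => x l = y), a l) * φ y =
    ∑ l, if p (x l) then a l * φ (x l) else 0 := by
  have h1 : ∑ l, (if p (x l) then a l * φ (x l) else 0) =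
      ∑ y ∈ Finset.univ.image x, ∑ l ∈ Finset.univ.filter (fun l => x l = y),
        (if p (x l) then a l * φ (x l) else 0) := by
    rw [Finset.sum_fiberwise_of_maps_to]
    intro l _
    exact Finset.mem_image_of_mem _ (Finset.mem_univ _)
  rw [h1, Finset.sum_filter]
  apply Finset.sum_congr rfl
  intro y _
  have h2 : ∑ l ∈ Finset.univ.filter (fun l => x l = y), (if p (x l) then a l * φ (x l) else 0) =
      ∑ l ∈ Finset.univ.filter (fun l => x l = y), (if p y then a l * φ y else 0) := by
    apply Finset.sum_congr rfl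
    intro l hl
    rw [(Finset.mem_filter.mp hl).2]
  rw [h2]
  by_cases hp : p y
  · simp only [hp, true_and, if_true]
    rw [← Finset.sum_mul]
    by_cases h0 : (∑ l ∈ Finset.univ.filter (fun l => x l = y), a l) = 0
    · rw [h0]; simp
    · rw [if_pos h0]
  · simp [hp]

/-- the element is a filler -/
def isF : El m → Prop
  | El.F _ => True
  | El.P _ _ => False
  | El.W _ => False
  | El.N _ => False
  | El.B _ _ => False

/-- the element is in the copies part -/
def isB : El m → Prop
  | El.B _ _ => True
  | El.P _ _ => False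
  | El.W _ => False
  | El.N _ => False
  | El.F _ => False

/-- the labelled integer of an element of the copies part -/
def pr : El m → ℕ × ℤ
  | El.B r b => (r, b)
  | El.P _ _ => (0, 0)
  | El.W _ => (0, 0)
  | El.N _ => (0, 0)
  | El.F _ => (0, 0)

/-- Freeness of the sets used for yes-instances. -/
lemma afree_of_indep {a : Fin (m + 3) → ℤ} (ha : ∀ i, a i ≠ 0) (hs : ∑ i, a i ≠ 0)
    (h01 : a 0 + a 1 ≠ 0) {E : ℕ → ℕ × ℕ} {e : ℕ} (hE : ∀ i < e, (E i).1 < (E i).2)
    (hinj : ∀ i < e, ∀ i' < e, E i = E i' → i = i') {T : Finset (El m)} {Fn : ℕ}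
    (hW : ∀ i, El.W i ∈ T → i < e) (hF : ∀ i, El.F i ∈ T → i < Fn)
    (hN : ∀ i < e, ¬ (El.N (E i).1 ∈ T ∧ El.N (E i).2 ∈ T))
    {S : Finset (ℕ × ℤ)} (hS : CFree a S) (hB : ∀ r b, El.B r b ∈ T → (r, b) ∈ S) :
    AFree a E T := by
  classical
  intro x hx ⟨hV, hP, hFF, hBB⟩
  by_cases hG : (∑ l, if isG (x l) then a l else 0) = 0
  · -- transfer to the copies part
    have hFs : (∑ l, if isF (x l) then a l else 0) = 0 := by
      have h1 : ∑ i ∈ Finset.range Fn, ∑ l, a l * cF (x l) i = 0 :=
        Finset.sum_eq_zero (fun i _ => hFF i)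
      rw [Finset.sum_comm] at h1
      refine Eq.trans ?_ h1
      apply Finset.sum_congr rfl
      intro l _
      rw [← Finset.mul_sum]
      have hl := hx l
      cases hxl : x l with
      | N u => simp [isF, cF]
      | P i j => simp [isF, cF]
      | W i => simp [isF, cF]
      | B r b => simp [isF, cF]
      | F i =>
        rw [hxl] at hl
        have := hF i hl
        have ht : isF (El.F i : El m) := trivial
        rw [if_pos ht]
        simp only [cF]
        rw [Finset.sum_ite_eq, if_pos (Finset.mem_range.mpr this), mul_one]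
    have htot : ∑ l, a l = (∑ l, if isG (x l) then a l else 0) + (∑ l, if isF (x l) then a l else 0)
        + (∑ l, if isB (x l) then a l else 0) := by
      rw [← Finset.sum_add_distrib, ← Finset.sum_add_distrib]
      apply Finset.sum_congr rfl
      intro l _
      cases x l <;> simp [isG, isF, isB]
    have hnot : (∑ l, if isB (x l) then 0 else a l) = 0 := by
      have h2 : ∑ l, a l = (∑ l, if isB (x l) then a l else 0) + (∑ l, if isB (x l) then 0 else a l) := by
        rw [← Finset.sum_add_distrib]
        apply Finset.sum_congr rfl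
        intro l _
        by_cases h : isB (x l) <;> simp [h]
      rw [h2, hG, hFs] at htot
      linarith
    have hBs : (∑ l, if isB (x l) then a l else 0) ≠ 0 := by
      intro h
      apply hs
      rw [htot, hG, hFs, h]
      rfl
    obtain ⟨l0, hl0⟩ : ∃ l0, isB (x l0) := by
      by_contra hno
      push Not at hno
      apply hBs
      apply Finset.sum_eq_zero
      intro l _
      rw [if_neg (hno l)]
    have hpr : ∀ l, isB (x l) → pr (x l) ∈ S := by
      intro l hl
      have h3 := hx l
      cases hxl : x l with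
      | B r b => rw [hxl] at h3; exact hB r b h3
      | N u => rw [hxl] at hl; exact hl.elim
      | P i j => rw [hxl] at hl; exact hl.elim
      | W i => rw [hxl] at hl; exact hl.elim
      | F i => rw [hxl] at hl; exact hl.elim
    obtain ⟨r, hr⟩ := hS (fun l => if isB (x l) then pr (x l) else pr (x l0)) (by
      intro l
      by_cases h : isB (x l)
      · simp only [h, if_true]; exact hpr l h
      · simp only [h, if_false]; exact hpr l0 hl0)
    apply hr
    have h4 : ∀ l, a l * (if (if isB (x l) then pr (x l) else pr (x l0)).1 = r then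
        (if isB (x l) then pr (x l) else pr (x l0)).2 else 0) =
        a l * cB (x l) r + (if isB (x l) then 0 else a l) * (if (pr (x l0)).1 = r then (pr (x l0)).2 else 0) := by
      intro l
      generalize pr (x l0) = q
      cases x l with
      | B r' b => simp [isB, cB, pr]
      | N u =>
        have ht : ¬ isB (El.N u : El m) := fun h => h
        rw [if_neg ht, if_neg ht]; simp only [cB]; ring
      | P i j =>
        have ht : ¬ isB (El.P i j : El m) := fun h => h
        rw [if_neg ht, if_neg ht]; simp only [cB]; ring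
      | W i =>
        have ht : ¬ isB (El.W i : El m) := fun h => h
        rw [if_neg ht, if_neg ht]; simp only [cB]; ring
      | F i =>
        have ht : ¬ isB (El.F i : El m) := fun h => h
        rw [if_neg ht, if_neg ht]; simp only [cB]; ring
    simp only [h4]
    rw [Finset.sum_add_distrib, hBB r, ← Finset.sum_mul, hnot]
    simp
  · -- gadget part
    set c : El m → ℤ := fun y => ∑ l ∈ Finset.univ.filter (fun l => x l = y), a l with hc
    set Y : Finset (El m) := (Finset.univ.image x).filter (fun y => isG y ∧ c y ≠ 0) with hY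
    have hYT : ∀ y ∈ Y, y ∈ T := by
      intro y hy
      rw [hY, Finset.mem_filter, Finset.mem_image] at hy
      obtain ⟨⟨l, -, rfl⟩, -⟩ := hy
      exact hx l
    have hreg := fun φ : El m → ℤ => regroup x a isG φ
    have key : ∃ i, El.W i ∈ Y ∧ El.N (E i).1 ∈ Y ∧ El.N (E i).2 ∈ Y ∧ ∀ j, El.P i j ∈ Y := ?_
    · obtain ⟨i, hi, h1, h2, -⟩ := key
      exact hN i (hW i (hYT _ hi)) ⟨hYT _ h1, hYT _ h2⟩
    apply gadget_key (E := E) (Y := Y) (c := c) ha h01
    · intro y hy
      exact (Finset.mem_filter.mp hy).2.2
    · intro y hy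
      exact (Finset.mem_filter.mp hy).2.1
    · intro i hi
      exact hE i (hW i (hYT _ hi))
    · intro i i' hi hi' h
      exact hinj i (hW i (hYT _ hi)) i' (hW i' (hYT _ hi')) h
    · refine (Finset.card_filter_le _ _).trans (Finset.card_image_le.trans ?_)
      rw [Finset.card_univ, Fintype.card_fin]
    · have := hreg (fun _ => 1)
      simp only [mul_one] at this
      rw [this]
      exact hG
    · intro u
      have := hreg (fun y => cV a E y u)
      rw [this]
      refine Eq.trans ?_ (hV u)
      apply Finset.sum_congr rfl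
      intro l _
      cases x l <;> simp [isG, cV]
    · intro i j
      have := hreg (fun y => cP a y i j)
      rw [this]
      refine Eq.trans ?_ (hP i j)
      apply Finset.sum_congr rfl
      intro l _
      cases x l <;> simp [isG, cP]

/-- the tuple of gadget `i` -/
def tup (E : ℕ → ℕ × ℕ) (i : ℕ) : Fin (m + 3) → El m :=
  Fin.cases (El.N (E i).1) (Fin.cases (El.N (E i).2) (Fin.cases (El.W i) (fun j => El.P i j)))

lemma sum3 (f : Fin (m + 3) → ℤ) :
    ∑ l, f l = f 0 + f 1 + f 2 + ∑ j : Fin m, f j.succ.succ.succ := by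
  rw [Fin.sum_univ_succ, Fin.sum_univ_succ, Fin.sum_univ_succ]
  have h1 : (Fin.succ 0 : Fin (m + 3)) = 1 := rfl
  have h2 : (Fin.succ (Fin.succ 0) : Fin (m + 3)) = 2 := rfl
  rw [h1, h2]
  ring

lemma tl_eq (a : Fin (m + 3) → ℤ) (j : Fin m) : a j.succ.succ.succ = tl a j := rfl

lemma rel_tup (a : Fin (m + 3) → ℤ) (E : ℕ → ℕ × ℕ) (i : ℕ) : Rel a E (tup (m := m) E i) := by
  have t0 : tup (m := m) E i 0 = El.N (E i).1 := rfl
  have t1 : tup (m := m) E i 1 = El.N (E i).2 := rfl
  have t2 : tup (m := m) E i 2 = El.W i := rfl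
  have t3 : ∀ j : Fin m, tup (m := m) E i j.succ.succ.succ = El.P i j := fun j => rfl
  refine ⟨?_, ?_, ?_, ?_⟩
  · intro u
    rw [sum3, t0, t1, t2]
    simp only [t3, cV, mul_zero, Finset.sum_const_zero, add_zero]
    by_cases h1 : (E i).1 = u <;> by_cases h2 : (E i).2 = u <;> simp [h1, h2] <;> ring
  · intro i' j'
    rw [sum3, t0, t1, t2]
    simp only [t3, cP, mul_zero, zero_add, tl_eq]
    by_cases h : i = i'
    · subst h
      simp only [true_and, if_true]
      have : ∀ j : Fin m, tl a j * (if j = j' then a 2 else 0) = if j = j' then tl a j' * a 2 else 0 := by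
        intro j
        by_cases hj : j = j'
        · subst hj; simp
        · simp [hj]
      simp only [this]
      rw [Finset.sum_ite_eq' Finset.univ j' (fun _ => tl a j' * a 2)]
      simp
      ring
    · simp [h]
  · intro i'
    rw [sum3, t0, t1, t2]
    simp [t3, cF]
  · intro r
    rw [sum3, t0, t1, t2]
    simp [t3, cB]

/-- The upper bound: a free set gives an independent set. -/
lemma indep_of_afree {a : Fin (m + 3) → ℤ} {E : ℕ → ℕ × ℕ} {n e Fn R : ℕ} {B : Finset ℤ}
    {T : Finset (El m)} (hT : ∀ y ∈ T, InA n e Fn R B y) (hf : AFree a E T) :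
    ∃ I : Finset ℕ, (∀ u ∈ I, u < n) ∧ (∀ i < e, ¬ ((E i).1 ∈ I ∧ (E i).2 ∈ I)) ∧
      T.card ≤ I.card + e * (m + 1) + Fn + gR a B R := by
  classical
  set I0 := (Finset.range n).filter (fun u => El.N (m := m) u ∈ T) with hI0
  set bad := (Finset.range e).filter (fun i => (E i).1 ∈ I0 ∧ (E i).2 ∈ I0) with hbad
  set S := (Finset.range R ×ˢ B).filter (fun y => El.B (m := m) y.1 y.2 ∈ T) with hS
  have hI0m : ∀ u, u ∈ I0 → El.N (m := m) u ∈ T := by
    intro u hu
    rw [hI0, Finset.mem_filter] at hu
    exact hu.2
  have hSf : CFree a S := by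
    intro x hx
    have h1 := hf (fun l => El.B (x l).1 (x l).2) (by
      intro l
      have := hx l
      rw [hS, Finset.mem_filter] at this
      exact this.2)
    by_contra hno
    push Not at hno
    apply h1
    refine ⟨?_, ?_, ?_, ?_⟩
    · intro u; simp [cV]
    · intro i j; simp [cP]
    · intro i; simp [cF]
    · intro r
      simp only [cB]
      exact hno r
  have hScard : S.card ≤ gR a B R := le_gR (Finset.filter_subset _ _) hSf
  have hcov : T ⊆ I0.image El.N ∪ (Finset.range e).biUnion (fun i => T ∩ gp m i) ∪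
      (Finset.range Fn).image El.F ∪ S.image (fun y => El.B y.1 y.2) := by
    intro y hy
    have h1 := hT y hy
    simp only [Finset.mem_union, Finset.mem_image, Finset.mem_biUnion, Finset.mem_range,
      Finset.mem_inter]
    cases y with
    | N u =>
      left; left; left
      refine ⟨u, ?_, rfl⟩
      rw [hI0, Finset.mem_filter, Finset.mem_range]
      exact ⟨h1, hy⟩
    | P i j =>
      left; left; right
      refine ⟨i, h1, hy, ?_⟩
      unfold gp
      simp
    | W i =>
      left; left; right
      refine ⟨i, h1, hy, ?_⟩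
      unfold gp
      simp
    | F i =>
      left; right
      exact ⟨i, h1, rfl⟩
    | B r b =>
      right
      refine ⟨(r, b), ?_, rfl⟩
      rw [hS, Finset.mem_filter, Finset.mem_product, Finset.mem_range]
      exact ⟨h1, hy⟩
  have hgad : ∀ i ∈ Finset.range e, (T ∩ gp m i).card + (if i ∈ bad then 1 else 0) ≤ m + 1 := by
    intro i _
    have h1 : (T ∩ gp m i).card ≤ m + 1 := by
      rw [← card_gp (m := m) i]
      exact Finset.card_le_card Finset.inter_subset_right
    by_cases hb : i ∈ bad
    · rw [if_pos hb]
      rw [hbad, Finset.mem_filter] at hb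
      by_contra hlt
      have h2 : gp m i ⊆ T := by
        have : T ∩ gp m i = gp m i := by
          apply Finset.eq_of_subset_of_card_le Finset.inter_subset_right
          rw [card_gp]
          omega
        rw [← this]
        exact Finset.inter_subset_left
      apply hf (tup E i) _ (rel_tup a E i)
      intro l
      refine Fin.cases ?_ (fun l => ?_) l
      · exact hI0m _ hb.2.1
      · refine Fin.cases ?_ (fun l => ?_) l
        · exact hI0m _ hb.2.2
        · refine Fin.cases ?_ (fun j => ?_) l
          · apply h2; unfold gp; exact Finset.mem_insert_self _ _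
          · apply h2; unfold gp
            exact Finset.mem_insert_of_mem (Finset.mem_image_of_mem _ (Finset.mem_univ _))
    · rw [if_neg hb]
      exact h1
  have hsum := Finset.sum_le_sum hgad
  rw [Finset.sum_add_distrib, Finset.sum_const, Finset.card_range, smul_eq_mul] at hsum
  have hbadsum : ∑ i ∈ Finset.range e, (if i ∈ bad then 1 else 0) = bad.card := by
    rw [Finset.sum_boole, Nat.cast_id]
    congr 1
    ext i
    rw [Finset.mem_filter]
    constructor
    · exact fun h => h.2
    · intro h
      refine ⟨?_, h⟩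
      rw [hbad, Finset.mem_filter] at h
      exact h.1
  rw [hbadsum] at hsum
  refine ⟨I0 \ bad.image (fun i => (E i).1), ?_, ?_, ?_⟩
  · intro u hu
    rw [Finset.mem_sdiff, hI0, Finset.mem_filter, Finset.mem_range] at hu
    exact hu.1.1
  · rintro i hi ⟨h1, h2⟩
    rw [Finset.mem_sdiff] at h1 h2
    apply h1.2
    rw [Finset.mem_image]
    refine ⟨i, ?_, rfl⟩
    rw [hbad, Finset.mem_filter, Finset.mem_range]
    exact ⟨hi, h1.1, h2.1⟩
  · have h1 : I0.card ≤ (I0 \ bad.image (fun i => (E i).1)).card + bad.card := by
      have h2 := Finset.card_le_card_sdiff_add_card (s := I0) (t := bad.image (fun i => (E i).1))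
      have h3 : (bad.image (fun i => (E i).1)).card ≤ bad.card := Finset.card_image_le
      omega
    have h4 := Finset.card_le_card hcov
    have h5 : (I0.image El.N ∪ (Finset.range e).biUnion (fun i => T ∩ gp m i) ∪
      (Finset.range Fn).image El.F ∪ S.image (fun y => El.B y.1 y.2)).card ≤
      I0.card + ∑ i ∈ Finset.range e, (T ∩ gp m i).card + Fn + S.card := by
      refine (Finset.card_union_le _ _).trans ?_
      refine add_le_add ?_ Finset.card_image_le
      refine (Finset.card_union_le _ _).trans ?_
      refine add_le_add ?_ (Finset.card_image_le.trans (Finset.card_range _).le)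
      refine (Finset.card_union_le _ _).trans ?_
      exact add_le_add Finset.card_image_le Finset.card_biUnion_le
    omega

end Pool.Agent.H2.LFree
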