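import Mathlib
import Pool.Agent.H2.LFree.Defs
import Pool.Agent.H39.NP.Member

set_option autoImplicit false

namespace Pool.Agent.H2.LFree

open Pool.Agent.H72.NP Pool.Agent.H80.Poly

/-- no solution with entries in `T`, the constant term being `acc` -/
def chk (T : List ℤ) : List ℤ → ℤ → Bool
  | [], acc => !(decide (acc = 0))
  | c :: cs, acc => T.all (fun x => chk T cs (acc + c * x))

lemma chk_iff (T : List ℤ) : ∀ (k : ℕ) (a : Fin k → ℤ) (acc : ℤ),
    chk T (List.ofFn a) acc = true ↔ ∀ x : Fin k → ℤ, (∀ i, x i ∈ T) → acc + ∑ i, a i * x i ≠ 0 := by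
  intro k
  induction k with
  | zero =>
    intro a acc
    simp [chk]
  | succ k ih =>
    intro a acc
    rw [List.ofFn_succ]
    simp only [chk, List.all_eq_true]
    constructor
    · intro h x hx
      have h1 := (ih (fun i => a i.succ) (acc + a 0 * x 0)).mp (h (x 0) (hx 0)) (fun i => x i.succ)
        (fun i => hx i.succ)
      rw [Fin.sum_univ_succ, ← add_assoc]
      exact h1
    · intro h y hy
      rw [ih]
      intro x hx
      have h1 := h (Fin.cons y x) (by
        intro i
        refine Fin.cases ?_ (fun i => ?_) i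
        · simpa using hy
        · simpa using hx i)
      rw [Fin.sum_univ_succ, ← add_assoc] at h1
      simpa using h1

theorem polyTime_chk : ∀ (cs : List ℤ) (Γ : Type) [BEnc Γ] (T : Γ → List ℤ) (acc : Γ → ℤ),
    PolyTime T → PolyTime acc → PolyTime (fun z => chk (T z) cs (acc z)) := by
  intro cs
  induction cs with
  | nil =>
    intro Γ _ T acc _ hacc
    exact PolyTime.not (hacc.eq (PolyTime.const 0))
  | cons c cs ih =>
    intro Γ _ T acc hT hacc
    have hw : PolyTime (fun w : Γ × ℤ => w) := PolyTime.id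
    exact PolyTime.all hT (g := fun w : Γ × ℤ => chk (T w.1) cs (acc w.1 + c * w.2))
      (ih (Γ × ℤ) (fun w => T w.1) (fun w => acc w.1 + c * w.2) (hT.comp hw.fst)
        ((hacc.comp hw.fst).intAdd ((PolyTime.const c).intMul hw.snd)))

/-- the sublist chosen by a mask -/
def sel (l : List ℤ) (w : List Bool) : List ℤ := ((l.zip w).filter (fun z => z.2)).map Prod.fst

lemma sel_sublist : ∀ (l : List ℤ) (w : List Bool), (sel l w).Sublist l := by
  intro l
  induction l with
  | nil => intro w; simp [sel]
  | cons x l ih =>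
    intro w
    cases w with
    | nil => simp [sel]
    | cons b w =>
      have h := ih w
      cases b with
      | true =>
        have : sel (x :: l) (true :: w) = x :: sel l w := by simp [sel]
        rw [this]
        exact List.Sublist.cons_cons x h
      | false =>
        have : sel (x :: l) (false :: w) = sel l w := by simp [sel]
        rw [this]
        exact List.Sublist.cons x h

lemma sel_map (f : ℤ → Bool) : ∀ (l : List ℤ), sel l (l.map f) = l.filter f := by
  intro l
  induction l with
  | nil => simp [sel]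
  | cons x l ih =>
    have h : sel (x :: l) ((x :: l).map f) = if f x then x :: sel l (l.map f) else sel l (l.map f) := by
      cases hf : f x <;> simp [sel, hf]
    rw [h, ih, List.filter_cons]

theorem polyTime_sel {Γ : Type} [BEnc Γ] {l : Γ → List ℤ} {w : Γ → List Bool} (hl : PolyTime l)
    (hw : PolyTime w) : PolyTime (fun z => sel (l z) (w z)) := by
  have hu : PolyTime (fun w : Γ × (ℤ × Bool) => w) := PolyTime.id
  exact ((hl.zip hw).filter (g := fun u : Γ × (ℤ × Bool) => u.2.2) hu.snd.snd).map
    (g := fun u : Γ × (ℤ × Bool) => u.2.1) hu.snd.fst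

/-- test for repetitions -/
def nodupB (l : List ℤ) : Bool :=
  l.zipIdx.all (fun z => l.zipIdx.all (fun z' => !(decide (z.1 = z'.1)) || decide (z.2 = z'.2)))

lemma nodupB_iff (l : List ℤ) : nodupB l = true ↔ l.Nodup := by
  unfold nodupB
  simp only [List.all_eq_true, Bool.or_eq_true, Bool.not_eq_true', decide_eq_false_iff_not,
    decide_eq_true_eq]
  rw [List.nodup_iff_injective_get]
  constructor
  · intro h i j hij
    have h1 := h (l.get i, i.val) (by
      rw [List.mem_iff_getElem]
      exact ⟨i.val, by simp, by simp⟩) (l.get j, j.val) (by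
      rw [List.mem_iff_getElem]
      exact ⟨j.val, by simp, by simp⟩)
    rcases h1 with h1 | h1
    · exact absurd hij h1
    · exact Fin.ext h1
  · rintro h ⟨x, i⟩ hx ⟨y, j⟩ hy
    by_cases hxy : x = y
    · right
      rw [List.mem_iff_getElem] at hx hy
      obtain ⟨i', hi', hx⟩ := hx
      obtain ⟨j', hj', hy⟩ := hy
      simp only [List.getElem_zipIdx, zero_add, Prod.mk.injEq] at hx hy
      rw [List.length_zipIdx] at hi' hj'
      have h2 : l.get ⟨i', hi'⟩ = l.get ⟨j', hj'⟩ := by
        rw [List.get_eq_getElem, List.get_eq_getElem]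
        show l[i'] = l[j']
        rw [hx.1, hy.1, hxy]
      have h3 := h h2
      have h4 : i' = j' := congrArg Fin.val h3
      show i = j
      rw [← hx.2, ← hy.2, h4]
    · left; exact hxy

theorem polyTime_nodupB {Γ : Type} [BEnc Γ] {l : Γ → List ℤ} (hl : PolyTime l) :
    PolyTime (fun z => nodupB (l z)) := by
  have hu : PolyTime (fun w : Γ × (ℤ × ℕ) => w) := PolyTime.id
  have hv : PolyTime (fun w : (Γ × (ℤ × ℕ)) × (ℤ × ℕ) => w) := PolyTime.id
  have h1 := PolyTime.all (l := fun w : Γ × (ℤ × ℕ) => (l w.1).zipIdx) (hl.comp hu.fst).zipIdx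
    (g := fun w : (Γ × (ℤ × ℕ)) × (ℤ × ℕ) =>
      !(decide (w.1.2.1 = w.2.1)) || decide (w.1.2.2 = w.2.2))
    ((PolyTime.not (hv.fst.snd.fst.eq hv.snd.fst)).or (hv.fst.snd.snd.eq hv.snd.snd))
  exact PolyTime.all hl.zipIdx (g := fun w : Γ × (ℤ × ℕ) =>
    (l w.1).zipIdx.all (fun z' => !(decide (w.2.1 = z'.1)) || decide (w.2.2 = z'.2))) h1

/-- the verifier -/
def ver {k : ℕ} (a : Fin k → ℤ) (p s : ℕ) (z : List ℤ × List Bool) : Bool :=
  (nodupB z.1 && !(decide ((0 : ℤ) ∈ z.1))) &&
    (decide (p * z.1.length ≤ s * (sel z.1 z.2).length) && chk (sel z.1 z.2) (List.ofFn a) 0)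

theorem polyTime_ver {k : ℕ} (a : Fin k → ℤ) (p s : ℕ) : PolyTime (ver a p s) := by
  have hz : PolyTime (fun z : List ℤ × List Bool => z) := PolyTime.id
  have hsel := polyTime_sel hz.fst hz.snd
  unfold ver
  refine ((polyTime_nodupB hz.fst).and (PolyTime.not ?_)).and (PolyTime.and ?_ ?_)
  · exact (PolyTime.mem (PolyTime.const (0 : ℤ)) hz.fst).congr
      (fun _ => decide_eq_decide.mpr Iff.rfl)
  · exact ((PolyTime.const p).mul (PolyTime.length hz.fst)).le
      ((PolyTime.const s).mul (PolyTime.length hsel))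
  · exact polyTime_chk _ _ _ _ hsel (PolyTime.const 0)

/-- Membership in NP. -/
theorem inNP_eps {k : ℕ} (a : Fin k → ℤ) {p s : ℕ} (hs : 0 < s) :
    InNP (BEnc.enc (α := List ℤ)) (EpsFreeSubset a ((p : ℚ) / s)) := by
  classical
  have hs' : (0 : ℚ) < (s : ℚ) := by exact_mod_cast hs
  apply Pool.Agent.H39.Front.inNP_of_polyTime (ver a p s) (polyTime_ver a p s) Polynomial.X
  intro l
  have hver : ∀ w, ver a p s (l, w) = true ↔ l.Nodup ∧ (0 : ℤ) ∉ l ∧
      p * l.length ≤ s * (sel l w).length ∧ LFree a (sel l w).toFinset := by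
    intro w
    unfold ver
    rw [Bool.and_eq_true, Bool.and_eq_true, Bool.and_eq_true, nodupB_iff, chk_iff]
    simp only [Bool.not_eq_true', decide_eq_false_iff_not, decide_eq_true_eq, zero_add]
    unfold LFree
    simp only [List.mem_toFinset]
    tauto
  have hcast : ∀ n : ℕ, p * l.length ≤ s * n ↔ (p : ℚ) / s * (l.length : ℚ) ≤ (n : ℚ) := by
    intro n
    rw [div_mul_eq_mul_div, div_le_iff₀ hs']
    constructor
    · intro h
      rw [mul_comm (n : ℚ)]
      exact_mod_cast h
    · intro h
      rw [mul_comm (n : ℚ)] at h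
      exact_mod_cast h
  constructor
  · rintro ⟨h1, h2, S, hS, hf, hc⟩
    refine ⟨l.map (fun x => decide (x ∈ S)), ?_, ?_⟩
    · rw [List.length_map, Polynomial.eval_X]
      exact length_le_size l
    · rw [hver, sel_map]
      have h3 : (l.filter (fun x => decide (x ∈ S))).toFinset = S := by
        ext x
        rw [List.mem_toFinset, List.mem_filter, decide_eq_true_eq]
        constructor
        · exact fun h => h.2
        · intro h
          exact ⟨List.mem_toFinset.mp (hS h), h⟩
      have h4 : (l.filter (fun x => decide (x ∈ S))).length = S.card := by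
        rw [← h3, List.toFinset_card_of_nodup (h1.filter _), h3]
      refine ⟨h1, h2, ?_, ?_⟩
      · rw [h4, hcast]
        exact hc
      · rw [h3]
        exact hf
  · rintro ⟨w, -, hw⟩
    rw [hver] at hw
    obtain ⟨h1, h2, h3, h4⟩ := hw
    refine ⟨h1, h2, (sel l w).toFinset, ?_, h4, ?_⟩
    · intro x hx
      rw [List.mem_toFinset] at hx ⊢
      exact (sel_sublist l w).subset hx
    · rw [List.toFinset_card_of_nodup (h1.sublist (sel_sublist l w)), ← hcast]
      exact h3

end Pool.Agent.H2.LFree
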