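import Mathlib
import Pool.Agent.H2.LFree.Combi

set_option autoImplicit false

namespace Pool.Agent.H2.LFree

open Polynomial

/-- An integer polynomial with coefficients smaller than `M` that vanishes at `M` is zero. -/
lemma poly_eq_zero {M : ℤ} (hM : 0 < M) : ∀ (n : ℕ) (Q : ℤ[X]), Q.natDegree < n →
    (∀ p, |Q.coeff p| < M) → Q.eval M = 0 → Q = 0 := by
  intro n
  induction n with
  | zero => intro Q h; omega
  | succ n ih =>
    intro Q hdeg hc he
    have hdec := Q.divX_mul_X_add
    have h1 : Q.divX.eval M * M + Q.coeff 0 = 0 := by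
      have : (Q.divX * X + C (Q.coeff 0)).eval M = 0 := by rw [hdec]; exact he
      simpa using this
    have h0 : Q.coeff 0 = 0 := by
      apply Int.eq_zero_of_abs_lt_dvd (m := M)
      · exact ⟨-(Q.divX.eval M), by linarith⟩
      · exact hc 0
    rw [h0, add_zero] at h1
    have h2 : Q.divX.eval M = 0 := by
      rcases mul_eq_zero.mp h1 with h | h
      · exact h
      · omega
    rw [h0, map_zero, add_zero] at hdec
    by_cases hQ : Q.natDegree = 0
    · have := Polynomial.eq_C_of_natDegree_eq_zero hQ
      rw [this, h0, map_zero]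
    · have h3 : Q.divX = 0 := by
        apply ih
        · rw [Polynomial.natDegree_divX_eq_natDegree_tsub_one]
          omega
        · intro p
          rw [Polynomial.coeff_divX]
          exact hc _
        · exact h2
      rw [← hdec, h3, zero_mul]

variable {m : ℕ}

/-- positions -/
def ps (m u s : ℕ) : ℕ := (m + 3) * u + s

lemma ps_inj {u s u' s' : ℕ} (hs : s < m + 3) (hs' : s' < m + 3) :
    ps m u s = ps m u' s' ↔ u = u' ∧ s = s' := by
  unfold ps
  constructor
  · intro h
    have h1 : ((m + 3) * u + s) / (m + 3) = u := by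
      rw [Nat.mul_add_div (by omega), Nat.div_eq_of_lt hs, add_zero]
    have h2 : ((m + 3) * u' + s') / (m + 3) = u' := by
      rw [Nat.mul_add_div (by omega), Nat.div_eq_of_lt hs', add_zero]
    have h3 : u = u' := by rw [← h1, ← h2, h]
    subst h3
    exact ⟨rfl, by omega⟩
  · rintro ⟨rfl, rfl⟩; rfl

/-- the polynomial of a code -/
noncomputable def pol (a : Fin (m + 3) → ℤ) (E : ℕ → ℕ × ℕ) : El m → ℤ[X]
  | El.N u => C (a 2) * X ^ ps m u 0
  | El.P i j => C (a 2) * X ^ ps m i (1 + j)
  | El.W i => -(C (a 0) * X ^ ps m (E i).1 0 + C (a 1) * X ^ ps m (E i).2 0 +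
      ∑ j : Fin m, C (tl a j) * X ^ ps m i (1 + j))
  | El.F i => C 1 * X ^ ps m i (m + 1)
  | El.B r b => C b * X ^ ps m r (m + 2)

/-- the integer of a code -/
def val (a : Fin (m + 3) → ℤ) (M : ℤ) (E : ℕ → ℕ × ℕ) : El m → ℤ
  | El.N u => a 2 * M ^ ps m u 0
  | El.P i j => a 2 * M ^ ps m i (1 + j)
  | El.W i => -(a 0 * M ^ ps m (E i).1 0 + a 1 * M ^ ps m (E i).2 0 +
      ∑ j : Fin m, tl a j * M ^ ps m i (1 + j))
  | El.F i => M ^ ps m i (m + 1)
  | El.B r b => b * M ^ ps m r (m + 2)

lemma eval_pol (a : Fin (m + 3) → ℤ) (M : ℤ) (E : ℕ → ℕ × ℕ) (y : El m) :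
    (pol a E y).eval M = val a M E y := by
  cases y <;> simp [pol, val, Polynomial.eval_finsetSum]

lemma mono_coeff (c : ℤ) {u s u' s' : ℕ} (hs : s < m + 3) (hs' : s' < m + 3) :
    (C c * X ^ ps m u' s').coeff (ps m u s) = if u' = u ∧ s' = s then c else 0 := by
  rw [coeff_C_mul_X_pow]
  by_cases h : u' = u ∧ s' = s
  · obtain ⟨rfl, rfl⟩ := h
    simp
  · rw [if_neg h, if_neg]
    intro h2
    obtain ⟨rfl, rfl⟩ := (ps_inj hs hs').mp h2
    exact h ⟨rfl, rfl⟩

lemma coeff_V (a : Fin (m + 3) → ℤ) (E : ℕ → ℕ × ℕ) (y : El m) (u : ℕ) :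
    (pol a E y).coeff (ps m u 0) = cV a E y u := by
  cases y with
  | N u' =>
    simp only [pol, cV]
    rw [mono_coeff _ (by omega) (by omega)]
    simp
  | P i j =>
    simp only [pol, cV]
    rw [mono_coeff _ (by omega) (by omega), if_neg (by omega)]
  | F i =>
    simp only [pol, cV]
    rw [mono_coeff _ (by omega) (by omega), if_neg (by omega)]
  | B r b =>
    simp only [pol, cV]
    rw [mono_coeff _ (by omega) (by omega), if_neg (by omega)]
  | W i =>
    simp only [pol, cV, coeff_neg, coeff_add, finsetSum_coeff]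
    rw [mono_coeff _ (by omega) (by omega), mono_coeff _ (by omega) (by omega), Finset.sum_eq_zero]
    · simp
    · intro j _
      rw [mono_coeff _ (by omega) (by omega), if_neg (by omega)]

lemma coeff_P (a : Fin (m + 3) → ℤ) (E : ℕ → ℕ × ℕ) (y : El m) (i : ℕ) (j : Fin m) :
    (pol a E y).coeff (ps m i (1 + j)) = cP a y i j := by
  have hj := j.isLt
  cases y with
  | N u' =>
    simp only [pol, cP]
    rw [mono_coeff _ (by omega) (by omega), if_neg (by omega)]
  | P i' j' =>
    have hj' := j'.isLt
    simp only [pol, cP]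
    rw [mono_coeff _ (by omega) (by omega)]
    by_cases h : i' = i ∧ j' = j
    · obtain ⟨rfl, rfl⟩ := h
      simp
    · rw [if_neg, if_neg h]
      rintro ⟨rfl, h2⟩
      exact h ⟨rfl, Fin.ext (by omega)⟩
  | F i =>
    simp only [pol, cP]
    rw [mono_coeff _ (by omega) (by omega), if_neg (by omega)]
  | B r b =>
    simp only [pol, cP]
    rw [mono_coeff _ (by omega) (by omega), if_neg (by omega)]
  | W i' =>
    simp only [pol, cP, coeff_neg, coeff_add, finsetSum_coeff]
    rw [mono_coeff _ (by omega) (by omega), mono_coeff _ (by omega) (by omega), if_neg (by omega),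
      if_neg (by omega), zero_add, zero_add]
    by_cases h : i' = i
    · subst h
      rw [if_pos rfl, Finset.sum_eq_single j]
      · rw [mono_coeff _ (by omega) (by omega), if_pos ⟨rfl, rfl⟩]
      · intro j' _ hne
        have hj' := j'.isLt
        rw [mono_coeff _ (by omega) (by omega), if_neg]
        rintro ⟨-, h2⟩
        exact hne (Fin.ext (by omega))
      · intro h; exact absurd (Finset.mem_univ _) h
    · rw [if_neg h, Finset.sum_eq_zero, neg_zero]
      intro j' _
      have hj' := j'.isLt
      rw [mono_coeff _ (by omega) (by omega), if_neg]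
      rintro ⟨h1, -⟩
      exact h h1

lemma coeff_F (a : Fin (m + 3) → ℤ) (E : ℕ → ℕ × ℕ) (y : El m) (i : ℕ) :
    (pol a E y).coeff (ps m i (m + 1)) = cF y i := by
  cases y with
  | N u' =>
    simp only [pol, cF]
    rw [mono_coeff _ (by omega) (by omega), if_neg (by omega)]
  | P i j =>
    simp only [pol, cF]
    rw [mono_coeff _ (by omega) (by omega), if_neg (by omega)]
  | F i' =>
    simp only [pol, cF]
    rw [mono_coeff _ (by omega) (by omega)]
    simp
  | B r b =>
    simp only [pol, cF]
    rw [mono_coeff _ (by omega) (by omega), if_neg (by omega)]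
  | W i =>
    simp only [pol, cF, coeff_neg, coeff_add, finsetSum_coeff]
    rw [mono_coeff _ (by omega) (by omega), mono_coeff _ (by omega) (by omega), Finset.sum_eq_zero]
    · rw [if_neg (by omega), if_neg (by omega)]; simp
    · intro j _
      rw [mono_coeff _ (by omega) (by omega), if_neg (by omega)]

lemma coeff_B (a : Fin (m + 3) → ℤ) (E : ℕ → ℕ × ℕ) (y : El m) (r : ℕ) :
    (pol a E y).coeff (ps m r (m + 2)) = cB y r := by
  cases y with
  | N u' =>
    simp only [pol, cB]
    rw [mono_coeff _ (by omega) (by omega), if_neg (by omega)]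
  | P i j =>
    simp only [pol, cB]
    rw [mono_coeff _ (by omega) (by omega), if_neg (by omega)]
  | F i' =>
    simp only [pol, cB]
    rw [mono_coeff _ (by omega) (by omega), if_neg (by omega)]
  | B r' b =>
    simp only [pol, cB]
    rw [mono_coeff _ (by omega) (by omega)]
    simp
  | W i =>
    simp only [pol, cB, coeff_neg, coeff_add, finsetSum_coeff]
    rw [mono_coeff _ (by omega) (by omega), mono_coeff _ (by omega) (by omega), Finset.sum_eq_zero]
    · rw [if_neg (by omega), if_neg (by omega)]; simp
    · intro j _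
      rw [mono_coeff _ (by omega) (by omega), if_neg (by omega)]

/-- every position is of one of the four kinds -/
lemma pos_cases (m p : ℕ) : (∃ u, p = ps m u 0) ∨ (∃ i, ∃ j : Fin m, p = ps m i (1 + j)) ∨
    (∃ i, p = ps m i (m + 1)) ∨ (∃ r, p = ps m r (m + 2)) := by
  have h := Nat.div_add_mod p (m + 3)
  have hlt := Nat.mod_lt p (show 0 < m + 3 by omega)
  generalize p % (m + 3) = s at h hlt
  generalize p / (m + 3) = u at h
  by_cases h0 : s = 0
  · left; exact ⟨u, by unfold ps; omega⟩
  · by_cases h1 : s ≤ m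
    · right; left
      refine ⟨u, ⟨s - 1, by omega⟩, ?_⟩
      unfold ps
      simp only
      omega
    · by_cases h2 : s = m + 1
      · right; right; left; exact ⟨u, by unfold ps; omega⟩
      · right; right; right; exact ⟨u, by unfold ps; omega⟩

/-- bound for the coefficients -/
def bd (a : Fin (m + 3) → ℤ) (B : Finset ℤ) : ℤ := ∑ l, |a l| + ∑ b ∈ B, |b| + 1

lemma bd_pos (a : Fin (m + 3) → ℤ) (B : Finset ℤ) : 0 < bd a B := by
  unfold bd
  have h1 : 0 ≤ ∑ l, |a l| := Finset.sum_nonneg (fun _ _ => abs_nonneg _)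
  have h2 : 0 ≤ ∑ b ∈ B, |b| := Finset.sum_nonneg (fun _ _ => abs_nonneg _)
  linarith

lemma abs_le_bd (a : Fin (m + 3) → ℤ) (B : Finset ℤ) (l : Fin (m + 3)) : |a l| ≤ bd a B := by
  unfold bd
  have h1 : |a l| ≤ ∑ l, |a l| :=
    Finset.single_le_sum (f := fun l => |a l|) (fun _ _ => abs_nonneg _) (Finset.mem_univ l)
  have h2 : 0 ≤ ∑ b ∈ B, |b| := Finset.sum_nonneg (fun _ _ => abs_nonneg _)
  linarith

lemma abs_coeff_le (a : Fin (m + 3) → ℤ) (E : ℕ → ℕ × ℕ) {n e Fn R : ℕ} {B : Finset ℤ} {y : El m}
    (hy : InA n e Fn R B y) (p : ℕ) : |(pol a E y).coeff p| ≤ bd a B := by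
  have hpos := (bd_pos a B).le
  rcases pos_cases m p with ⟨u, rfl⟩ | ⟨i, j, rfl⟩ | ⟨i, rfl⟩ | ⟨r, rfl⟩
  · rw [coeff_V]
    cases y with
    | N u' =>
      simp only [cV]
      split_ifs
      · exact abs_le_bd a B 2
      · simpa using hpos
    | P i j => simpa [cV] using hpos
    | F i => simpa [cV] using hpos
    | B r b => simpa [cV] using hpos
    | W i =>
      simp only [cV, abs_neg]
      have h01 : |a 0| + |a 1| ≤ bd a B := by
        unfold bd
        have h2 : 0 ≤ ∑ b ∈ B, |b| := Finset.sum_nonneg (fun _ _ => abs_nonneg _)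
        rw [Fin.sum_univ_succ, Fin.sum_univ_succ]
        have h3 : 0 ≤ ∑ i : Fin (m + 1), |a i.succ.succ| := Finset.sum_nonneg (fun _ _ => abs_nonneg _)
        have h4 : (Fin.succ 0 : Fin (m + 3)) = 1 := rfl
        rw [h4]
        linarith
      have h5 := abs_nonneg (a 0)
      have h6 := abs_nonneg (a 1)
      refine (abs_add_le _ _).trans ?_
      split_ifs
      · linarith
      · rw [abs_zero]; linarith
      · rw [abs_zero]; linarith
      · rw [abs_zero]; linarith
  · rw [coeff_P]
    cases y with
    | N u' => simpa [cP] using hpos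
    | P i' j' =>
      simp only [cP]
      split_ifs
      · exact abs_le_bd a B 2
      · simpa using hpos
    | F i => simpa [cP] using hpos
    | B r b => simpa [cP] using hpos
    | W i' =>
      simp only [cP]
      split_ifs
      · rw [abs_neg]; exact abs_le_bd a B _
      · simpa using hpos
  · rw [coeff_F]
    have h1 : 1 ≤ bd a B := by have := bd_pos a B; omega
    cases y with
    | N u' => simpa [cF] using hpos
    | P i' j' => simpa [cF] using hpos
    | F i =>
      simp only [cF]
      split_ifs
      · simpa using h1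
      · simpa using hpos
    | B r b => simpa [cF] using hpos
    | W i' => simpa [cF] using hpos
  · rw [coeff_B]
    cases y with
    | N u' => simpa [cB] using hpos
    | P i' j' => simpa [cB] using hpos
    | F i => simpa [cB] using hpos
    | B r b =>
      simp only [cB]
      split_ifs
      · unfold bd
        have h1 : |b| ≤ ∑ b ∈ B, |b| :=
          Finset.single_le_sum (f := fun b => |b|) (fun _ _ => abs_nonneg _) hy.2
        have h2 : 0 ≤ ∑ l, |a l| := Finset.sum_nonneg (fun _ _ => abs_nonneg _)
        linarith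
      · simpa using hpos
    | W i' => simpa [cB] using hpos

/-- The equation for the integers is the equation for the coordinates. -/
lemma rel_iff {a : Fin (m + 3) → ℤ} {E : ℕ → ℕ × ℕ} {n e Fn R : ℕ} {B : Finset ℤ} {M : ℤ}
    (hM : (∑ l, |a l|) * bd a B < M) {x : Fin (m + 3) → El m} (hx : ∀ l, InA n e Fn R B (x l)) :
    ∑ l, a l * val a M E (x l) = 0 ↔ Rel a E x := by
  have hM0 : 0 < M := by
    have h1 : 0 ≤ (∑ l, |a l|) * bd a B :=
      mul_nonneg (Finset.sum_nonneg (fun _ _ => abs_nonneg _)) (bd_pos a B).le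
    linarith
  set Q : ℤ[X] := ∑ l, C (a l) * pol a E (x l) with hQ
  have heval : Q.eval M = ∑ l, a l * val a M E (x l) := by
    rw [hQ, Polynomial.eval_finsetSum]
    apply Finset.sum_congr rfl
    intro l _
    rw [eval_mul, eval_C, eval_pol]
  have hcoeff : ∀ p, Q.coeff p = ∑ l, a l * (pol a E (x l)).coeff p := by
    intro p
    rw [hQ, finsetSum_coeff]
    apply Finset.sum_congr rfl
    intro l _
    rw [coeff_C_mul]
  have hbound : ∀ p, |Q.coeff p| < M := by
    intro p
    rw [hcoeff]
    refine lt_of_le_of_lt ?_ hM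
    refine (Finset.abs_sum_le_sum_abs _ _).trans ?_
    rw [Finset.sum_mul]
    apply Finset.sum_le_sum
    intro l _
    rw [abs_mul]
    exact mul_le_mul_of_nonneg_left (abs_coeff_le a E (hx l) p) (abs_nonneg _)
  rw [← heval]
  constructor
  · intro h
    have hQ0 := poly_eq_zero hM0 _ Q (Nat.lt_succ_self _) hbound h
    have hc0 : ∀ p, ∑ l, a l * (pol a E (x l)).coeff p = 0 := by
      intro p
      rw [← hcoeff, hQ0, coeff_zero]
    refine ⟨?_, ?_, ?_, ?_⟩
    · intro u
      have := hc0 (ps m u 0)
      simpa only [coeff_V] using this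
    · intro i j
      have := hc0 (ps m i (1 + j))
      simpa only [coeff_P] using this
    · intro i
      have := hc0 (ps m i (m + 1))
      simpa only [coeff_F] using this
    · intro r
      have := hc0 (ps m r (m + 2))
      simpa only [coeff_B] using this
  · rintro ⟨h1, h2, h3, h4⟩
    have : Q = 0 := by
      ext p
      rw [hcoeff, coeff_zero]
      rcases pos_cases m p with ⟨u, rfl⟩ | ⟨i, j, rfl⟩ | ⟨i, rfl⟩ | ⟨r, rfl⟩
      · simp only [coeff_V]; exact h1 u
      · simp only [coeff_P]; exact h2 i j
      · simp only [coeff_F]; exact h3 i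
      · simp only [coeff_B]; exact h4 r
    rw [this, eval_zero]

/-- kinds -/
def kind : El m → ℕ
  | El.N _ => 0
  | El.P _ _ => 1
  | El.W _ => 2
  | El.F _ => 3
  | El.B _ _ => 4

lemma coords_inj {a : Fin (m + 3) → ℤ} (ha : ∀ i, a i ≠ 0) {E : ℕ → ℕ × ℕ} {n e Fn R : ℕ}
    {B : Finset ℤ} (hB : (0 : ℤ) ∉ B) (hE : ∀ i < e, (E i).1 < (E i).2)
    (hinj : ∀ i < e, ∀ i' < e, E i = E i' → i = i') {y y' : El m}
    (hy : InA n e Fn R B y) (hy' : InA n e Fn R B y') (hV : ∀ u, cV a E y u = cV a E y' u)
    (hP : ∀ i j, cP a y i j = cP a y' i j) (hF : ∀ i, cF y i = cF y' i)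
    (hBB : ∀ r, cB y r = cB y' r) : y = y' := by
  wlog hk : kind y ≤ kind y' generalizing y y'
  · exact (this hy' hy (fun u => (hV u).symm) (fun i j => (hP i j).symm) (fun i => (hF i).symm)
      (fun r => (hBB r).symm) (by omega)).symm
  have ha0 := ha 0
  have ha1 := ha 1
  have ha2 := ha 2
  cases y with
  | N u =>
    have h1 := hV u
    simp only [cV, if_true] at h1
    cases y' with
    | N u' =>
      by_cases h : u' = u
      · rw [h]
      · simp only [h, if_false] at h1
        exact absurd h1 ha2
    | P i j => exact absurd h1 ha2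
    | F i => exact absurd h1 ha2
    | B r b => exact absurd h1 ha2
    | W i =>
      exfalso
      have hlt := hE i hy'
      have h2 := hV (E i).1
      have h3 := hV (E i).2
      have e1 : ¬ (E i).2 = (E i).1 := by omega
      have e2 : ¬ (E i).1 = (E i).2 := by omega
      simp only [cV, if_true, e1, e2, if_false, add_zero, zero_add] at h2 h3
      by_cases e3 : u = (E i).1
      · rw [if_neg (by omega)] at h3
        exact ha1 (neg_eq_zero.mp h3.symm)
      · rw [if_neg e3] at h2
        exact ha0 (neg_eq_zero.mp h2.symm)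
  | P i j =>
    have h1 := hP i j
    simp only [cP, and_self, if_true] at h1
    cases y' with
    | N u' => simp [kind] at hk
    | P i' j' =>
      by_cases h : i' = i ∧ j' = j
      · rw [h.1, h.2]
      · simp only [h, if_false] at h1
        exact absurd h1 ha2
    | F i => exact absurd h1 ha2
    | B r b => exact absurd h1 ha2
    | W i' =>
      exfalso
      have hlt := hE i' hy'
      have h2 := hV (E i').1
      have e1 : ¬ (E i').2 = (E i').1 := by omega
      simp only [cV, if_true, e1, if_false, add_zero] at h2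
      exact ha0 (neg_eq_zero.mp h2.symm)
  | W i =>
    have hlt := hE i hy
    have h2 := hV (E i).1
    have h3 := hV (E i).2
    have e1 : ¬ (E i).2 = (E i).1 := by omega
    have e2 : ¬ (E i).1 = (E i).2 := by omega
    simp only [cV, if_true, e1, e2, if_false, add_zero, zero_add] at h2 h3
    cases y' with
    | N u' => simp [kind] at hk
    | P i' j' => simp [kind] at hk
    | F i => exact absurd (neg_eq_zero.mp h2) ha0
    | B r b => exact absurd (neg_eq_zero.mp h2) ha0
    | W i' =>
      have hlt' := hE i' hy'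
      simp only at h2 h3
      have k1 : (E i').1 = (E i).1 ∨ (E i').2 = (E i).1 := by
        by_contra hno
        push Not at hno
        rw [if_neg hno.1, if_neg hno.2] at h2
        simp at h2
        exact ha0 h2
      have k2 : (E i').1 = (E i).2 ∨ (E i').2 = (E i).2 := by
        by_contra hno
        push Not at hno
        rw [if_neg hno.1, if_neg hno.2] at h3
        simp at h3
        exact ha1 h3
      have k3 : E i = E i' := by
        apply Prod.ext <;> omega
      rw [hinj i hy i' hy' k3]
  | F i =>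
    have h1 := hF i
    simp only [cF, if_true] at h1
    cases y' with
    | N u' => simp [kind] at hk
    | P i' j' => simp [kind] at hk
    | W i' => simp [kind] at hk
    | F i' =>
      by_cases h : i' = i
      · rw [h]
      · simp [h] at h1
    | B r b => simp at h1
  | B r b =>
    have h1 := hBB r
    simp only [cB, if_true] at h1
    have hb : b ≠ 0 := by rintro rfl; exact hB hy.2
    cases y' with
    | N u' => simp [kind] at hk
    | P i' j' => simp [kind] at hk
    | W i' => simp [kind] at hk
    | F i' => simp [kind] at hk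
    | B r' b' =>
      by_cases h : r' = r
      · simp only [h, if_true] at h1
        rw [h, h1]
      · simp only [h, if_false] at h1
        exact absurd h1 hb

/-- `val` is injective on the codes of the instance -/
lemma val_inj {a : Fin (m + 3) → ℤ} (ha : ∀ i, a i ≠ 0) {E : ℕ → ℕ × ℕ} {n e Fn R : ℕ}
    {B : Finset ℤ} (hB : (0 : ℤ) ∉ B) (hE : ∀ i < e, (E i).1 < (E i).2)
    (hinj : ∀ i < e, ∀ i' < e, E i = E i' → i = i') {M : ℤ} (hM : 2 * bd a B < M) {y y' : El m}
    (hy : InA n e Fn R B y) (hy' : InA n e Fn R B y') (h : val a M E y = val a M E y') :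
    y = y' := by
  have hM0 : 0 < M := by have := bd_pos a B; linarith
  have hQ0 : pol a E y - pol a E y' = 0 := by
    apply poly_eq_zero hM0 _ _ (Nat.lt_succ_self _)
    · intro p
      rw [coeff_sub]
      have h1 := abs_coeff_le a E hy p
      have h2 := abs_coeff_le a E hy' p
      have h3 := abs_sub (G := ℤ) ((pol a E y).coeff p) ((pol a E y').coeff p)
      linarith
    · rw [eval_sub, eval_pol, eval_pol, h, sub_self]
  have hpol : pol a E y = pol a E y' := sub_eq_zero.mp hQ0
  apply coords_inj (B := B) (n := n) (Fn := Fn) (R := R) ha hB hE hinj hy hy'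
  · intro u; rw [← coeff_V, ← coeff_V, hpol]
  · intro i j; rw [← coeff_P a E, ← coeff_P a E, hpol]
  · intro i; rw [← coeff_F a E, ← coeff_F a E, hpol]
  · intro r; rw [← coeff_B a E, ← coeff_B a E, hpol]

/-- the integers of the instance are nonzero -/
lemma val_ne_zero {a : Fin (m + 3) → ℤ} (ha : ∀ i, a i ≠ 0) {E : ℕ → ℕ × ℕ} {n e Fn R : ℕ}
    {B : Finset ℤ} (hB : (0 : ℤ) ∉ B) (hE : ∀ i < e, (E i).1 < (E i).2)
    {M : ℤ} (hM : 2 * bd a B < M) {y : El m}
    (hy : InA n e Fn R B y) : val a M E y ≠ 0 := by
  intro h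
  have hM0 : 0 < M := by have := bd_pos a B; linarith
  have hpos := bd_pos a B
  have hQ0 : pol a E y = 0 := by
    apply poly_eq_zero hM0 _ _ (Nat.lt_succ_self _)
    · intro p
      have h1 := abs_coeff_le a E hy p
      linarith
    · rw [eval_pol, h]
  cases y with
  | N u =>
    have := coeff_V a E (El.N u) u
    rw [hQ0] at this
    simp [cV] at this
    exact ha 2 this.symm
  | P i j =>
    have := coeff_P a E (El.P i j) i j
    rw [hQ0] at this
    simp [cP] at this
    exact ha 2 this.symm
  | F i =>
    have := coeff_F a E (El.F i) i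
    rw [hQ0] at this
    simp [cF] at this
  | B r b =>
    have := coeff_B a E (El.B r b) r
    rw [hQ0] at this
    simp [cB] at this
    rw [← this] at hy
    exact hB hy.2
  | W i =>
    have := coeff_V a E (El.W i) (E i).1
    rw [hQ0] at this
    have hlt := hE i hy
    have e1 : ¬ (E i).2 = (E i).1 := by omega
    simp [cV, e1] at this
    exact ha 0 this

end Pool.Agent.H2.LFree
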