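import Mathlib
import Pool.Agent.H2.LFree.Real

set_option autoImplicit false

namespace Pool.Agent.H2.LFree

variable {m : ℕ}

/-- the list of codes of the instance -/
def codes (m n e Fn R : ℕ) (Bl : List ℤ) : List (El m) :=
  (List.range n).map El.N ++
  ((List.range e).flatMap (fun i => El.W i :: (List.finRange m).map (El.P i)) ++
  ((List.range Fn).map El.F ++ (List.range R).flatMap (fun r => Bl.map (El.B r))))

lemma mem_codes {n e Fn R : ℕ} {Bl : List ℤ} {y : El m} :
    y ∈ codes m n e Fn R Bl ↔ InA n e Fn R Bl.toFinset y := by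
  unfold codes
  simp only [List.mem_append, List.mem_map, List.mem_range, List.mem_flatMap, List.mem_cons]
  cases y with
  | N u => simp [InA]
  | P i j => simp [InA, List.mem_finRange]
  | W i => simp [InA]
  | F i => simp [InA]
  | B r b => simp [InA]

lemma length_flatMap_const {α β : Type} (c : ℕ) (f : α → List β) :
    ∀ (l : List α), (∀ x ∈ l, (f x).length = c) → (l.flatMap f).length = l.length * c := by
  intro l
  induction l with
  | nil => intro _; simp
  | cons x l ih =>
    intro h
    rw [List.flatMap_cons, List.length_append, ih (fun y hy => h y (List.mem_cons_of_mem _ hy)),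
      h x List.mem_cons_self, List.length_cons]
    ring

lemma length_codes (n e Fn R : ℕ) (Bl : List ℤ) :
    (codes m n e Fn R Bl).length = n + e * (m + 1) + Fn + R * Bl.length := by
  unfold codes
  rw [List.length_append, List.length_append, List.length_append,
    length_flatMap_const (m + 1) _ (List.range e), length_flatMap_const Bl.length _ (List.range R)]
  · simp only [List.length_map, List.length_range]
    ring
  · intro x _; simp
  · intro x _; simp

lemma nodup_codes (n e Fn R : ℕ) {Bl : List ℤ} (hB : Bl.Nodup) : (codes m n e Fn R Bl).Nodup := by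
  unfold codes
  have h1 : ((List.range n).map (El.N (m := m))).Nodup :=
    List.nodup_range.map (fun u v h => by injection h)
  have h3 : ((List.range Fn).map (El.F (m := m))).Nodup :=
    List.nodup_range.map (fun u v h => by injection h)
  have h2 : ((List.range e).flatMap
      (fun i => (El.W i : El m) :: (List.finRange m).map (El.P i))).Nodup := by
    rw [List.nodup_flatMap]
    constructor
    · intro i _
      rw [List.nodup_cons]
      constructor
      · simp
      · exact (List.nodup_finRange m).map (fun u v h => by injection h)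
    · refine List.nodup_range.imp ?_
      intro i i' hne
      simp only [Function.onFun]
      intro y hy hy'
      rw [List.mem_cons, List.mem_map] at hy hy'
      rcases hy with rfl | ⟨j, -, rfl⟩ <;> rcases hy' with hy' | ⟨j', -, hy'⟩ <;> simp_all
  have h4 : ((List.range R).flatMap (fun r => Bl.map (El.B (m := m) r))).Nodup := by
    rw [List.nodup_flatMap]
    constructor
    · intro r _
      exact hB.map (fun u v h => by injection h)
    · refine List.nodup_range.imp ?_
      intro i i' hne
      simp only [Function.onFun]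
      intro y hy hy'
      rw [List.mem_map] at hy hy'
      obtain ⟨b, -, rfl⟩ := hy
      obtain ⟨b', -, h⟩ := hy'
      simp_all
  refine List.Nodup.append h1 (List.Nodup.append h2 (List.Nodup.append h3 h4 ?_) ?_) ?_
  · intro y hy hy'
    simp only [List.mem_map, List.mem_flatMap] at hy hy'
    obtain ⟨u, -, rfl⟩ := hy
    obtain ⟨r, -, b, -, h⟩ := hy'
    cases h
  · intro y hy hy'
    simp only [List.mem_append, List.mem_map, List.mem_flatMap, List.mem_cons] at hy hy'
    obtain ⟨i, -, rfl | ⟨j, -, rfl⟩⟩ := hy <;> rcases hy' with ⟨u, -, h⟩ | ⟨r, -, b, -, h⟩ <;> cases h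
  · intro y hy hy'
    simp only [List.mem_append, List.mem_map, List.mem_flatMap, List.mem_cons] at hy hy'
    obtain ⟨u, -, rfl⟩ := hy
    rcases hy' with ⟨i, -, h | ⟨j, -, h⟩⟩ | ⟨i, -, h⟩ | ⟨r, -, b, -, h⟩ <;> cases h

/-- The instance and free sets of codes. -/
lemma eps_iff {a : Fin (m + 3) → ℤ} (ha : ∀ i, a i ≠ 0) {E : ℕ → ℕ × ℕ} {n e Fn R : ℕ}
    {Bl : List ℤ} (hBn : Bl.Nodup) (hB : (0 : ℤ) ∉ Bl) (hE : ∀ i < e, (E i).1 < (E i).2)
    (hinj : ∀ i < e, ∀ i' < e, E i = E i' → i = i') {M : ℤ}
    (hM1 : (∑ l, |a l|) * bd a Bl.toFinset < M) (hM2 : 2 * bd a Bl.toFinset < M) (ε : ℚ) :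
    EpsFreeSubset a ε ((codes m n e Fn R Bl).map (val a M E)) ↔
      ∃ T : Finset (El m), (∀ y ∈ T, InA n e Fn R Bl.toFinset y) ∧ AFree a E T ∧
        ε * ((n + e * (m + 1) + Fn + R * Bl.length : ℕ) : ℚ) ≤ (T.card : ℚ) := by
  classical
  have hB' : (0 : ℤ) ∉ Bl.toFinset := by rwa [List.mem_toFinset]
  have hvi : ∀ y ∈ codes m n e Fn R Bl, ∀ y' ∈ codes m n e Fn R Bl,
      val a M E y = val a M E y' → y = y' := by
    intro y hy y' hy' h
    exact val_inj ha hB' hE hinj hM2 (mem_codes.mp hy) (mem_codes.mp hy') h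
  unfold EpsFreeSubset
  rw [List.length_map, length_codes]
  constructor
  · rintro ⟨-, -, S, hS, hf, hc⟩
    refine ⟨((codes m n e Fn R Bl).toFinset).filter (fun y => val a M E y ∈ S), ?_, ?_, ?_⟩
    · intro y hy
      rw [Finset.mem_filter, List.mem_toFinset] at hy
      exact mem_codes.mp hy.1
    · intro x hx hrel
      have hx1 : ∀ l, InA n e Fn R Bl.toFinset (x l) := by
        intro l
        have := hx l
        rw [Finset.mem_filter, List.mem_toFinset] at this
        exact mem_codes.mp this.1
      apply hf (fun l => val a M E (x l))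
      · intro l
        exact (Finset.mem_filter.mp (hx l)).2
      · exact (rel_iff hM1 hx1).mpr hrel
    · refine hc.trans ?_
      rw [Nat.cast_le]
      have hsub : S ⊆ (((codes m n e Fn R Bl).toFinset).filter (fun y => val a M E y ∈ S)).image
          (val a M E) := by
        intro z hz
        have h1 := hS hz
        rw [List.mem_toFinset, List.mem_map] at h1
        obtain ⟨y, hy, rfl⟩ := h1
        apply Finset.mem_image_of_mem
        rw [Finset.mem_filter, List.mem_toFinset]
        exact ⟨hy, hz⟩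
      exact (Finset.card_le_card hsub).trans Finset.card_image_le
  · rintro ⟨T, hT, hf, hc⟩
    refine ⟨?_, ?_, T.image (val a M E), ?_, ?_, ?_⟩
    · apply List.Nodup.map_on _ (nodup_codes n e Fn R hBn)
      exact hvi
    · intro h
      rw [List.mem_map] at h
      obtain ⟨y, hy, h0⟩ := h
      exact val_ne_zero ha hB' hE hM2 (mem_codes.mp hy) h0
    · intro z hz
      rw [Finset.mem_image] at hz
      obtain ⟨y, hy, rfl⟩ := hz
      rw [List.mem_toFinset]
      exact List.mem_map_of_mem (mem_codes.mpr (hT y hy))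
    · intro z hz h0
      have h1 : ∀ l, ∃ y ∈ T, val a M E y = z l := by
        intro l
        have := hz l
        rw [Finset.mem_image] at this
        exact this
      choose x hxT hxv using h1
      apply hf x hxT
      rw [← rel_iff hM1 (fun l => hT _ (hxT l))]
      simpa only [hxv] using h0
    · rw [Finset.card_image_of_injOn]
      · exact hc
      · intro y hy y' hy' h
        exact hvi y (mem_codes.mpr (hT y hy)) y' (mem_codes.mpr (hT y' hy')) h

/-- Independent sets and the instance. -/
lemma indep_iff {a : Fin (m + 3) → ℤ} (ha : ∀ i, a i ≠ 0) (hs : ∑ i, a i ≠ 0)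
    (h01 : a 0 + a 1 ≠ 0) {E : ℕ → ℕ × ℕ} {n e Fn R : ℕ}
    {Bl : List ℤ} (hBn : Bl.Nodup) (hB : (0 : ℤ) ∉ Bl) (hE : ∀ i < e, (E i).1 < (E i).2)
    (hinj : ∀ i < e, ∀ i' < e, E i = E i' → i = i') {M : ℤ}
    (hM1 : (∑ l, |a l|) * bd a Bl.toFinset < M) (hM2 : 2 * bd a Bl.toFinset < M) {ε : ℚ} {κ : ℕ}
    (hyes : ε * ((n + e * (m + 1) + Fn + R * Bl.length : ℕ) : ℚ) ≤
      ((κ + e * (m + 1) + Fn + gR a Bl.toFinset R : ℕ) : ℚ))
    (hno : ((κ + e * (m + 1) + Fn + gR a Bl.toFinset R : ℕ) : ℚ) - 1 <
      ε * ((n + e * (m + 1) + Fn + R * Bl.length : ℕ) : ℚ)) :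
    (∃ I : Finset ℕ, I.card = κ ∧ (∀ u ∈ I, u < n) ∧ ∀ i < e, ¬ ((E i).1 ∈ I ∧ (E i).2 ∈ I)) ↔
    EpsFreeSubset a ε ((codes m n e Fn R Bl).map (val a M E)) := by
  classical
  rw [eps_iff ha hBn hB hE hinj hM1 hM2]
  constructor
  · rintro ⟨I, hIc, hIn, hI⟩
    obtain ⟨S, hS1, hS2, hS3⟩ := exists_gR (k := m + 2) a Bl.toFinset R
    set T : Finset (El m) := I.image El.N ∪ ((Finset.range e).biUnion (gp m) ∪
      ((Finset.range Fn).image El.F ∪ S.image (fun y => El.B y.1 y.2))) with hT
    have hmem : ∀ y, y ∈ T ↔ ((∃ u ∈ I, El.N u = y) ∨ (∃ i < e, y ∈ gp m i) ∨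
        (∃ i < Fn, El.F i = y) ∨ (∃ z ∈ S, El.B z.1 z.2 = y)) := by
      intro y
      rw [hT]
      simp only [Finset.mem_union, Finset.mem_image, Finset.mem_biUnion, Finset.mem_range]
    have hN : ∀ u, El.N u ∈ T → u ∈ I := by
      intro u hu
      rw [hmem] at hu
      rcases hu with ⟨u', hu', h⟩ | ⟨i, -, h⟩ | ⟨i, -, h⟩ | ⟨z, -, h⟩
      · injection h with h; rw [← h]; exact hu'
      · exact absurd h (N_notMem_gp u i)
      · cases h
      · cases h
    have hF : ∀ i, El.F i ∈ T → i < Fn := by
      intro u hu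
      rw [hmem] at hu
      rcases hu with ⟨u', hu', h⟩ | ⟨i, -, h⟩ | ⟨i, hi, h⟩ | ⟨z, -, h⟩
      · cases h
      · unfold gp at h; simp at h
      · injection h with h; rw [← h]; exact hi
      · cases h
    have hBB : ∀ r b, El.B r b ∈ T → (r, b) ∈ S := by
      intro r b hu
      rw [hmem] at hu
      rcases hu with ⟨u', hu', h⟩ | ⟨i, -, h⟩ | ⟨i, hi, h⟩ | ⟨z, hz, h⟩
      · cases h
      · unfold gp at h; simp at h
      · cases h
      · injection h with h1 h2; rw [← h1, ← h2]; exact hz
    have hgpe : ∀ i y, y ∈ gp m i → isG y ∧ InA n (i + 1) Fn R Bl.toFinset y ∧ (∀ u, y ≠ El.N u) := by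
      intro i y hy
      unfold gp at hy
      rw [Finset.mem_insert, Finset.mem_image] at hy
      rcases hy with rfl | ⟨j, -, rfl⟩
      · exact ⟨trivial, Nat.lt_succ_self i, fun u h => by cases h⟩
      · exact ⟨trivial, Nat.lt_succ_self i, fun u h => by cases h⟩
    have hgpi : ∀ i y, y ∈ gp m i → i < e → InA n e Fn R Bl.toFinset y := by
      intro i y hy hi
      unfold gp at hy
      rw [Finset.mem_insert, Finset.mem_image] at hy
      rcases hy with rfl | ⟨j, -, rfl⟩ <;> exact hi
    have hW : ∀ i, El.W i ∈ T → i < e := by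
      intro i hu
      rw [hmem] at hu
      rcases hu with ⟨u', hu', h⟩ | ⟨i', hi', h⟩ | ⟨i, hi, h⟩ | ⟨z, hz, h⟩
      · cases h
      · exact hgpi i' _ h hi'
      · cases h
      · cases h
    refine ⟨T, ?_, ?_, ?_⟩
    · intro y hy
      rw [hmem] at hy
      rcases hy with ⟨u, hu, rfl⟩ | ⟨i, hi, h⟩ | ⟨i, hi, rfl⟩ | ⟨z, hz, rfl⟩
      · exact hIn u hu
      · exact hgpi i y h hi
      · exact hi
      · have := hS1 hz
        rw [Finset.mem_product, Finset.mem_range] at this
        exact this
    · apply afree_of_indep ha hs h01 hE hinj hW hF _ hS2 hBB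
      rintro i hi ⟨h1, h2⟩
      exact hI i hi ⟨hN _ h1, hN _ h2⟩
    · refine hyes.trans ?_
      rw [Nat.cast_le]
      have c1 : (I.image (El.N (m := m))).card = κ := by
        rw [Finset.card_image_of_injective _ (fun u v h => by injection h), hIc]
      have c2 : ((Finset.range e).biUnion (gp m)).card = e * (m + 1) := by
        rw [Finset.card_biUnion]
        · simp only [card_gp, Finset.sum_const, Finset.card_range, smul_eq_mul]
        · intro i _ i' _ hne
          exact disj_gp hne
      have c3 : ((Finset.range Fn).image (El.F (m := m))).card = Fn := by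
        rw [Finset.card_image_of_injective _ (fun u v h => by injection h), Finset.card_range]
      have c4 : (S.image (fun y => El.B (m := m) y.1 y.2)).card = gR a Bl.toFinset R := by
        rw [Finset.card_image_of_injective, hS3]
        rintro ⟨r1, b1⟩ ⟨r2, b2⟩ h
        simp only [El.B.injEq] at h
        rw [h.1, h.2]
      rw [hT, Finset.card_union_of_disjoint, Finset.card_union_of_disjoint,
        Finset.card_union_of_disjoint, c1, c2, c3, c4]
      · omega
      · rw [Finset.disjoint_left]
        intro y hy hy'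
        rw [Finset.mem_image] at hy hy'
        obtain ⟨i, -, rfl⟩ := hy
        obtain ⟨z, -, h⟩ := hy'
        cases h
      · rw [Finset.disjoint_left]
        intro y hy hy'
        rw [Finset.mem_biUnion] at hy
        obtain ⟨i, -, hy⟩ := hy
        have hG := (hgpe i y hy).1
        rw [Finset.mem_union, Finset.mem_image, Finset.mem_image] at hy'
        rcases hy' with ⟨i', -, rfl⟩ | ⟨z, -, rfl⟩
        · exact hG
        · exact hG
      · rw [Finset.disjoint_left]
        intro y hy hy'
        rw [Finset.mem_image] at hy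
        obtain ⟨u, -, rfl⟩ := hy
        rw [Finset.mem_union, Finset.mem_union, Finset.mem_image, Finset.mem_image,
          Finset.mem_biUnion] at hy'
        rcases hy' with ⟨i', -, h⟩ | ⟨z, -, h⟩ | ⟨z, -, h⟩
        · exact N_notMem_gp u i' h
        · cases h
        · cases h
  · rintro ⟨T, hT, hf, hc⟩
    obtain ⟨I, h1, h2, h3⟩ := indep_of_afree hT hf
    have h4 : κ ≤ I.card := by
      by_contra hlt
      push Not at hlt
      have h5 : T.card + 1 ≤ κ + e * (m + 1) + Fn + gR a Bl.toFinset R := by omega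
      have h6 : ((T.card : ℚ)) + 1 ≤ ((κ + e * (m + 1) + Fn + gR a Bl.toFinset R : ℕ) : ℚ) := by
        exact_mod_cast h5
      linarith
    obtain ⟨I', hI', hc'⟩ := Finset.exists_subset_card_eq h4
    exact ⟨I', hc', fun u hu => h1 u (hI' hu), fun i hi h => h2 i hi ⟨hI' h.1, hI' h.2⟩⟩

end Pool.Agent.H2.LFree
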