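import Mathlib
import Pool.Agent.H2.LFree.Inst
import Pool.Agent.H72.NP.CliqueHard

set_option autoImplicit false

namespace Pool.Agent.H2.LFree

open Pool.Agent.H72.NP Pool.Agent.H80.Poly

/-- edges of the complement graph -/
def cmpl (n : ℕ) (E0 : List (ℕ × ℕ)) : List (ℕ × ℕ) :=
  (List.range n).flatMap fun v =>
    ((List.range v).filter fun u => !(decide ((u, v) ∈ E0))).map fun u => (u, v)

lemma mem_cmpl {n : ℕ} {E0 : List (ℕ × ℕ)} {u v : ℕ} :
    (u, v) ∈ cmpl n E0 ↔ v < n ∧ u < v ∧ (u, v) ∉ E0 := by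
  unfold cmpl
  simp only [List.mem_flatMap, List.mem_range, List.mem_map, List.mem_filter, Prod.mk.injEq,
    Bool.not_eq_true', decide_eq_false_iff_not]
  constructor
  · rintro ⟨v', hv, u', ⟨hu, ha⟩, rfl, rfl⟩
    exact ⟨hv, hu, ha⟩
  · rintro ⟨h1, h2, h3⟩
    exact ⟨v, h1, u, ⟨h2, h3⟩, rfl, rfl⟩

lemma nodup_cmpl (n : ℕ) (E0 : List (ℕ × ℕ)) : (cmpl n E0).Nodup := by
  unfold cmpl
  rw [List.nodup_flatMap]
  constructor
  · intro v _
    exact (List.nodup_range.filter _).map (fun a b h => (Prod.mk.injEq _ _ _ _ ▸ h).1)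
  · refine List.nodup_range.imp ?_
    intro v w hvw
    simp only [Function.onFun]
    intro e h1 h2
    rw [List.mem_map] at h1 h2
    obtain ⟨a, -, rfl⟩ := h1
    obtain ⟨b, -, h⟩ := h2
    exact hvw (Prod.mk.injEq _ _ _ _ ▸ h).2.symm

/-- enumeration of the edges of the complement graph -/
def Ef (n : ℕ) (E0 : List (ℕ × ℕ)) (i : ℕ) : ℕ × ℕ := (cmpl n E0).getD i (0, 0)

lemma Ef_mem {n : ℕ} {E0 : List (ℕ × ℕ)} {i : ℕ} (hi : i < (cmpl n E0).length) :
    Ef n E0 i ∈ cmpl n E0 := by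
  unfold Ef
  rw [List.getD_eq_getElem _ _ hi]
  exact List.getElem_mem hi

lemma Ef_lt {n : ℕ} {E0 : List (ℕ × ℕ)} : ∀ i < (cmpl n E0).length,
    (Ef n E0 i).1 < (Ef n E0 i).2 := by
  intro i hi
  have := Ef_mem hi
  exact (mem_cmpl (u := (Ef n E0 i).1) (v := (Ef n E0 i).2)).mp this |>.2.1

lemma Ef_inj {n : ℕ} {E0 : List (ℕ × ℕ)} : ∀ i < (cmpl n E0).length,
    ∀ i' < (cmpl n E0).length, Ef n E0 i = Ef n E0 i' → i = i' := by
  intro i hi i' hi' h
  unfold Ef at h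
  rw [List.getD_eq_getElem _ _ hi, List.getD_eq_getElem _ _ hi'] at h
  exact (List.Nodup.getElem_inj_iff (nodup_cmpl n E0)).mp h

lemma clique_iff (n : ℕ) (E0 : List (ℕ × ℕ)) (κ : ℕ) :
    HasClique n E0 κ ↔ ∃ I : Finset ℕ, I.card = κ ∧ (∀ u ∈ I, u < n) ∧
      ∀ i < (cmpl n E0).length, ¬ ((Ef n E0 i).1 ∈ I ∧ (Ef n E0 i).2 ∈ I) := by
  unfold HasClique
  constructor
  · rintro ⟨s, h1, h2, h3⟩
    refine ⟨s, h1, h2, ?_⟩
    rintro i hi ⟨hu, hv⟩
    have := Ef_mem hi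
    have h4 := (mem_cmpl (u := (Ef n E0 i).1) (v := (Ef n E0 i).2)).mp this
    exact h4.2.2 (h3 _ hu _ hv h4.2.1)
  · rintro ⟨s, h1, h2, h3⟩
    refine ⟨s, h1, h2, ?_⟩
    intro u hu v hv huv
    by_contra hno
    have h4 : (u, v) ∈ cmpl n E0 := mem_cmpl.mpr ⟨h2 v hv, huv, hno⟩
    obtain ⟨i, hi, he⟩ := List.getElem_of_mem h4
    apply h3 i hi
    have h5 : Ef n E0 i = (u, v) := by
      unfold Ef
      rw [List.getD_eq_getElem _ _ hi, he]
    rw [h5]
    exact ⟨hu, hv⟩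

/-- fixed parameters of the reduction -/
structure Par (m : ℕ) where
  /-- coefficients -/
  a : Fin (m + 3) → ℤ
  /-- the block -/
  Bl : List ℤ
  /-- logarithm of the base -/
  μ : ℕ
  /-- numerator -/
  p : ℕ
  /-- denominator -/
  s : ℕ
  /-- constant term -/
  g0 : ℕ
  /-- slope -/
  γ : ℕ
  /-- threshold -/
  R0 : ℕ

variable {m : ℕ} (P : Par m)

/-- number of extra copies -/
def Par.rr (n e : ℕ) : ℕ := P.s * (n + e * (m + 1)) + P.s * P.g0

/-- number of copies -/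
def Par.RR (n e : ℕ) : ℕ := P.R0 + P.rr n e

/-- the surplus -/
def Par.Phi (n e κ : ℕ) : ℕ :=
  P.p * (n + e * (m + 1) + P.RR n e * P.Bl.length) - P.s * (κ + e * (m + 1) + (P.g0 + P.γ * P.rr n e))

/-- number of fillers -/
def Par.Fn (n e κ : ℕ) : ℕ := (P.Phi n e κ + (P.s - P.p) - 1) / (P.s - P.p)

/-- the integers of a gadget -/
def Par.gadl (w : (ℕ × ℕ) × ℕ) : List ℤ :=
  -(P.a 0 * (2 ^ P.μ) ^ ps m w.1.1 0 + P.a 1 * (2 ^ P.μ) ^ ps m w.1.2 0 +
      ∑ j : Fin m, tl P.a j * (2 ^ P.μ) ^ ps m w.2 (1 + j)) ::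
    (List.finRange m).map (fun j => P.a 2 * (2 ^ P.μ) ^ ps m w.2 (1 + j.val))

/-- the instance -/
def Par.inst (n : ℕ) (E0 : List (ℕ × ℕ)) (κ : ℕ) : List ℤ :=
  (List.range n).map (fun u => P.a 2 * (2 ^ P.μ) ^ ps m u 0) ++
  ((cmpl n E0).zipIdx.flatMap P.gadl ++
  ((List.range (P.Fn n (cmpl n E0).length κ)).map (fun i => (2 ^ P.μ) ^ ps m i (m + 1)) ++
    (List.range (P.RR n (cmpl n E0).length)).flatMap
      (fun r => P.Bl.map (fun b => b * (2 ^ P.μ) ^ ps m r (m + 2)))))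

lemma zipIdx_getD {α : Type} (l : List α) (d : α) :
    l.zipIdx = (List.range l.length).map (fun i => (l.getD i d, i)) := by
  apply List.ext_getElem
  · simp
  · intro i h1 h2
    simp only [List.getElem_zipIdx, List.getElem_map, List.getElem_range, zero_add]
    rw [List.length_zipIdx] at h1
    rw [List.getD_eq_getElem _ _ h1]

lemma inst_eq (n : ℕ) (E0 : List (ℕ × ℕ)) (κ : ℕ) :
    P.inst n E0 κ = (codes m n (cmpl n E0).length (P.Fn n (cmpl n E0).length κ)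
      (P.RR n (cmpl n E0).length) P.Bl).map (val P.a (2 ^ P.μ) (Ef n E0)) := by
  unfold Par.inst codes
  rw [List.map_append, List.map_append, List.map_append, List.map_map, List.map_map,
    List.map_flatMap, List.map_flatMap, zipIdx_getD _ (0, 0), List.flatMap_map]
  congr 1
  congr 1
  · apply List.flatMap_congr
    intro i _
    rw [List.map_cons, List.map_map]
    rfl
  congr 1
  · apply List.flatMap_congr
    intro r _
    rw [List.map_map]
    rfl

/-- The arithmetic of the parameters. -/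
lemma arith {A b D s p g0 γ R0 : ℕ} (hps : p < s) (hγ : γ * s < p * b) (hD : D ≤ A) :
    let r := s * A + s * g0
    let Φ := p * (A + (R0 + r) * b) - s * (D + (g0 + γ * r))
    let F := (Φ + (s - p) - 1) / (s - p)
    p * (A + F + (R0 + r) * b) ≤ s * (D + F + (g0 + γ * r)) ∧
    s * (D + F + (g0 + γ * r)) < p * (A + F + (R0 + r) * b) + s := by
  intro r Φ F
  have h1 : s * (D + (g0 + γ * r)) ≤ p * (A + (R0 + r) * b) := by
    have h2 : r * (γ * s + 1) ≤ r * (p * b) := Nat.mul_le_mul_left r hγ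
    have h3 : s * D ≤ s * A := Nat.mul_le_mul_left s hD
    have h4 : r = s * A + s * g0 := rfl
    have h5 : p * (A + (R0 + r) * b) = p * A + p * R0 * b + r * (p * b) := by ring
    have h6 : s * (D + (g0 + γ * r)) = s * D + s * g0 + r * (γ * s) := by ring
    have h7 : r * (γ * s + 1) = r * (γ * s) + r := by ring
    rw [h5, h6]
    have h8 : 0 ≤ p * A + p * R0 * b := Nat.zero_le _
    omega
  obtain ⟨t, ht⟩ : ∃ t, s = p + t ∧ 0 < t := ⟨s - p, by omega, by omega⟩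
  obtain ⟨ht1, ht2⟩ := ht
  have ht3 : s - p = t := by omega
  have hΦ : Φ + s * (D + (g0 + γ * r)) = p * (A + (R0 + r) * b) := Nat.sub_add_cancel h1
  have hF : F = (Φ + t - 1) / t := by
    show (Φ + (s - p) - 1) / (s - p) = _
    rw [ht3]
  have hF1 : t * F ≤ Φ + t - 1 := by rw [hF]; exact Nat.mul_div_le _ _
  have hF2 : Φ + t - 1 < t * F + t := by
    rw [hF]
    have := Nat.lt_mul_div_succ (Φ + t - 1) ht2
    linarith
  have e1 : p * (A + F + (R0 + r) * b) = p * (A + (R0 + r) * b) + p * F := by ring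
  have e2 : s * (D + F + (g0 + γ * r)) = s * (D + (g0 + γ * r)) + p * F + t * F := by
    rw [ht1]; ring
  rw [e1, e2, ← hΦ]
  constructor
  · omega
  · omega

/-- Correctness of the reduction. -/
theorem inst_iff (ha : ∀ i, P.a i ≠ 0) (hs : ∑ i, P.a i ≠ 0) (h01 : P.a 0 + P.a 1 ≠ 0)
    (hBn : P.Bl.Nodup) (hB : (0 : ℤ) ∉ P.Bl)
    (hM1 : (∑ l, |P.a l|) * bd P.a P.Bl.toFinset < 2 ^ P.μ)
    (hM2 : 2 * bd P.a P.Bl.toFinset < 2 ^ P.μ)
    (hps : P.p < P.s) (hγ : P.γ * P.s < P.p * P.Bl.length)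
    (hg : ∀ r, gR P.a P.Bl.toFinset (P.R0 + r) = P.g0 + P.γ * r)
    (n : ℕ) (E0 : List (ℕ × ℕ)) (κ : ℕ) (hκ : κ ≤ n) :
    HasClique n E0 κ ↔ EpsFreeSubset P.a ((P.p : ℚ) / P.s) (P.inst n E0 κ) := by
  rw [clique_iff, inst_eq]
  have hD : κ + (cmpl n E0).length * (m + 1) ≤ n + (cmpl n E0).length * (m + 1) := by omega
  have har := arith (R0 := P.R0) (g0 := P.g0) hps hγ hD
  simp only at har
  have hs0 : (0 : ℚ) < (P.s : ℚ) := by
    have : 0 < P.s := by omega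
    exact_mod_cast this
  have hg' : gR P.a P.Bl.toFinset (P.RR n (cmpl n E0).length) =
      P.g0 + P.γ * (P.s * (n + (cmpl n E0).length * (m + 1)) + P.s * P.g0) := hg _
  have hF : P.Fn n (cmpl n E0).length κ = (P.p * (n + (cmpl n E0).length * (m + 1) +
      (P.R0 + (P.s * (n + (cmpl n E0).length * (m + 1)) + P.s * P.g0)) * P.Bl.length) -
      P.s * (κ + (cmpl n E0).length * (m + 1) +
      (P.g0 + P.γ * (P.s * (n + (cmpl n E0).length * (m + 1)) + P.s * P.g0))) +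
      (P.s - P.p) - 1) / (P.s - P.p) := rfl
  rw [← hF] at har
  have hR : P.RR n (cmpl n E0).length =
    P.R0 + (P.s * (n + (cmpl n E0).length * (m + 1)) + P.s * P.g0) := rfl
  apply indep_iff ha hs h01 hBn hB Ef_lt Ef_inj hM1 hM2
  · rw [hg', div_mul_eq_mul_div, div_le_iff₀ hs0, hR]
    exact_mod_cast (har.1.trans_eq (mul_comm _ _))
  · rw [hg', div_mul_eq_mul_div, lt_div_iff₀ hs0, hR, sub_mul, one_mul, sub_lt_iff_lt_add]
    exact_mod_cast ((mul_comm _ _).trans_lt har.2)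

end Pool.Agent.H2.LFree
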