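import Mathlib
import Pool.Agent.H2.LFree.Red

set_option autoImplicit false

namespace Pool.Agent.H2.LFree

open Pool.Agent.H72.NP Pool.Agent.H80.Poly

variable {Γ : Type} [BEnc Γ]

lemma val_single_true : Pool.Agent.H80.Poly.val [true] = 1 := by
  simp [Pool.Agent.H80.Poly.val]

/-- powers with a bounded exponent -/
theorem polyTime_pw (μ : ℕ) {N x : Γ → ℕ} (hN : PU N) (hx : PolyTime x) :
    PolyTime (fun z => ((2 : ℤ) ^ μ) ^ (min (x z) (N z))) := by
  have h1 : PU (fun z => min (x z) (N z)) :=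
    PU.of_le (hx.min hN.1) hN (fun _ => min_le_right _ _)
  have h2 : PU (fun z => μ * min (x z) (N z)) := (PU.const μ).mul h1
  have h3 : PolyTime (fun z => List.replicate (μ * min (x z) (N z)) false) :=
    PolyTime.replicate h2.1 h2.2 (PolyTime.const false)
  have h4 : PolyTime (fun z => List.replicate (μ * min (x z) (N z)) false ++ [true]) :=
    h3.append (PolyTime.const [true])
  refine (h4.val.natCast).congr (fun z => ?_)
  rw [val_append, val_replicate_false, List.length_replicate, val_single_true, zero_add, mul_one,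
    Nat.cast_pow, Nat.cast_ofNat, pow_mul]

/-- sums over a fixed index set -/
theorem polyTime_sumFixed {ι : Type} (s : Finset ι) (f : ι → Γ → ℤ) (h : ∀ j, PolyTime (f j)) :
    PolyTime (fun z => ∑ j ∈ s, f j z) := by
  classical
  induction s using Finset.induction_on with
  | empty => exact (PolyTime.const 0).congr (fun z => by rw [Finset.sum_empty])
  | insert j s hj ih =>
    exact ((h j).intAdd ih).congr (fun z => by rw [Finset.sum_insert hj])

theorem polyTime_cmpl {n : Γ → ℕ} {E0 : Γ → List (ℕ × ℕ)} (hn : PU n) (hE : PolyTime E0) :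
    PolyTime (fun a => cmpl (n a) (E0 a)) := by
  have hw : PolyTime (fun w : Γ × ℕ => w) := PolyTime.id
  have hu : PolyTime (fun w : (Γ × ℕ) × ℕ => w) := PolyTime.id
  have h1 : PU (fun w : Γ × ℕ => min w.2 (n w.1)) :=
    PU.of_le (hw.snd.min (hn.1.comp hw.fst)) (PU.comp hn hw.fst) (fun _ => min_le_right _ _)
  have h2 := h1.range.filter (g := fun w : (Γ × ℕ) × ℕ => !(decide ((w.2, w.1.2) ∈ E0 w.1.1)))
    (PolyTime.not ((PolyTime.mem (hu.snd.pair hu.fst.snd) (hE.comp hu.fst.fst)).congr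
      (fun _ => decide_eq_decide.mpr Iff.rfl)))
  have h3 := h2.map (g := fun w : (Γ × ℕ) × ℕ => (w.2, w.1.2)) (hu.snd.pair hu.fst.snd)
  have h4 := hn.range.flatMap (g := fun w : Γ × ℕ =>
    ((List.range (min w.2 (n w.1))).filter fun u => !(decide ((u, w.2) ∈ E0 w.1))).map
      fun u => (u, w.2)) h3
  refine h4.congr (fun a => ?_)
  unfold cmpl
  apply List.flatMap_congr
  intro v hv
  rw [List.mem_range] at hv
  simp only
  rw [min_eq_left hv.le]

theorem polyTime_ps (m s : ℕ) {u : Γ → ℕ} (hu : PolyTime u) : PolyTime (fun z => ps m (u z) s) :=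
  ((PolyTime.const (m + 3)).mul hu).add (PolyTime.const s)

variable {m : ℕ} (P : Par m)

/-- the integers of a gadget, with bounded exponents -/
def Par.gadlN (N : ℕ) (w : (ℕ × ℕ) × ℕ) : List ℤ :=
  -(P.a 0 * (2 ^ P.μ) ^ (min (ps m w.1.1 0) N) + P.a 1 * (2 ^ P.μ) ^ (min (ps m w.1.2 0) N) +
      ∑ j : Fin m, tl P.a j * (2 ^ P.μ) ^ (min (ps m w.2 (1 + j)) N)) ::
    (List.finRange m).map (fun j => P.a 2 * (2 ^ P.μ) ^ (min (ps m w.2 (1 + j.val)) N))

theorem polyTime_gadlN {N : Γ → ℕ} (hN : PU N) {w : Γ → (ℕ × ℕ) × ℕ} (hw : PolyTime w) :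
    PolyTime (fun z => P.gadlN (N z) (w z)) := by
  unfold Par.gadlN
  refine PolyTime.cons ?_ ?_
  · refine PolyTime.intNeg ?_
    refine ((PolyTime.intMul (PolyTime.const _) (polyTime_pw _ hN (polyTime_ps m 0 hw.fst.fst))).intAdd
      (PolyTime.intMul (PolyTime.const _) (polyTime_pw _ hN (polyTime_ps m 0 hw.fst.snd)))).intAdd ?_
    apply polyTime_sumFixed
    intro j
    exact PolyTime.intMul (PolyTime.const _) (polyTime_pw _ hN (polyTime_ps m _ hw.snd))
  · apply polyTime_map_fixed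
    intro j _
    exact PolyTime.intMul (PolyTime.const _) (polyTime_pw _ hN (polyTime_ps m _ hw.snd))

section numbers

variable {n e κ : Γ → ℕ} (hn : PU n) (he : PU e) (hκ : PU κ)

include hn he

theorem pu_sz : PU (fun z => n z + e z * (m + 1)) :=
  hn.add (he.mul (PU.const (m + 1)))

theorem pu_rr : PU (fun z => P.rr (n z) (e z)) := by
  unfold Par.rr
  exact ((PU.const P.s).mul (pu_sz hn he)).add (PU.const (P.s * P.g0))

theorem pu_RR : PU (fun z => P.RR (n z) (e z)) := by
  unfold Par.RR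
  exact (PU.const P.R0).add (pu_rr P hn he)

include hκ

theorem pu_Phi : PU (fun z => P.Phi (n z) (e z) (κ z)) := by
  unfold Par.Phi
  refine PU.sub ((PU.const P.p).mul ((pu_sz hn he).add ((pu_RR P hn he).mul (PU.const _)))) ?_
  exact (((PU.const P.s).mul ((hκ.add (he.mul (PU.const (m + 1)))).add
    ((PU.const P.g0).add ((PU.const P.γ).mul (pu_rr P hn he)))))).1

theorem pu_Fn : PU (fun z => P.Fn (n z) (e z) (κ z)) := by
  unfold Par.Fn
  have h1 : PU (fun z => P.Phi (n z) (e z) (κ z) + (P.s - P.p) - 1) :=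
    PU.sub ((pu_Phi P hn he hκ).add (PU.const _)) (PolyTime.const 1)
  exact PU.of_le (h1.1.div (PolyTime.const _)) h1 (fun z => Nat.div_le_self _ _)

end numbers

/-- a bound for all exponents -/
def Par.bdN (n e κ : ℕ) : ℕ := (m + 3) * (n + e + P.Fn n e κ + P.RR n e + 1)

lemma ps_le {m u s t : ℕ} (hu : u < t) (hs : s < m + 3) : ps m u s ≤ (m + 3) * t := by
  unfold ps
  obtain ⟨d, rfl⟩ : ∃ d, t = u + 1 + d := ⟨t - (u + 1), by omega⟩
  have : (m + 3) * (u + 1 + d) = (m + 3) * u + (m + 3) + (m + 3) * d := by ring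
  rw [this]
  have : 0 ≤ (m + 3) * d := Nat.zero_le _
  omega

/-- The reduction is computable in polynomial time. -/
theorem polyTime_inst {n κ : Γ → ℕ} {E0 : Γ → List (ℕ × ℕ)} (hn : PU n) (hκ : PU κ)
    (hE : PolyTime E0) : PolyTime (fun z => P.inst (n z) (E0 z) (κ z)) := by
  have hc : PolyTime (fun z => cmpl (n z) (E0 z)) := polyTime_cmpl hn hE
  have he : PU (fun z => (cmpl (n z) (E0 z)).length) := PU.length hc
  have hFn : PU (fun z => P.Fn (n z) (cmpl (n z) (E0 z)).length (κ z)) := pu_Fn P hn he hκ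
  have hRR : PU (fun z => P.RR (n z) (cmpl (n z) (E0 z)).length) := pu_RR P hn he
  have hN : PU (fun z => P.bdN (n z) (cmpl (n z) (E0 z)).length (κ z)) := by
    unfold Par.bdN
    exact (PU.const _).mul ((((hn.add he).add hFn).add hRR).add (PU.const 1))
  have hw : PolyTime (fun w : Γ × ℕ => w) := PolyTime.id
  have hv : PolyTime (fun w : Γ × ((ℕ × ℕ) × ℕ) => w) := PolyTime.id
  have hNw : PU (fun w : Γ × ℕ => P.bdN (n w.1) (cmpl (n w.1) (E0 w.1)).length (κ w.1)) :=
    PU.comp (n := fun z => P.bdN (n z) (cmpl (n z) (E0 z)).length (κ z)) hN hw.fst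
  have hNv : PU (fun w : Γ × ((ℕ × ℕ) × ℕ) =>
      P.bdN (n w.1) (cmpl (n w.1) (E0 w.1)).length (κ w.1)) :=
    PU.comp (n := fun z => P.bdN (n z) (cmpl (n z) (E0 z)).length (κ z)) hN hv.fst
  have k1 := hn.range.map (g := fun w : Γ × ℕ =>
    P.a 2 * (2 ^ P.μ) ^ (min (ps m w.2 0) (P.bdN (n w.1) (cmpl (n w.1) (E0 w.1)).length (κ w.1))))
    (PolyTime.intMul (PolyTime.const _) (polyTime_pw _ hNw (polyTime_ps m 0 hw.snd)))
  have k2 := (hc.zipIdx).flatMap (g := fun w : Γ × ((ℕ × ℕ) × ℕ) =>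
    P.gadlN (P.bdN (n w.1) (cmpl (n w.1) (E0 w.1)).length (κ w.1)) w.2)
    (polyTime_gadlN P hNv hv.snd)
  have k3 := hFn.range.map (g := fun w : Γ × ℕ =>
    ((2 : ℤ) ^ P.μ) ^ (min (ps m w.2 (m + 1)) (P.bdN (n w.1) (cmpl (n w.1) (E0 w.1)).length (κ w.1))))
    (polyTime_pw _ hNw (polyTime_ps m (m + 1) hw.snd))
  have k4 := hRR.range.flatMap (g := fun w : Γ × ℕ =>
    P.Bl.map (fun b => b *
      (2 ^ P.μ) ^ (min (ps m w.2 (m + 2)) (P.bdN (n w.1) (cmpl (n w.1) (E0 w.1)).length (κ w.1)))))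
    (polyTime_map_fixed _ _ (fun b _ =>
      PolyTime.intMul (PolyTime.const _) (polyTime_pw _ hNw (polyTime_ps m (m + 2) hw.snd))))
  refine (k1.append (k2.append (k3.append k4))).congr (fun z => ?_)
  unfold Par.inst
  set e := (cmpl (n z) (E0 z)).length with hedef
  congr 1
  · apply List.map_congr_left
    intro u hu
    rw [List.mem_range] at hu
    have h1 : ps m u 0 ≤ P.bdN (n z) e (κ z) := ps_le (by omega) (by omega)
    show P.a 2 * (2 ^ P.μ) ^ (min (ps m u 0) (P.bdN (n z) e (κ z))) = _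
    rw [min_eq_left h1]
  congr 1
  · apply List.flatMap_congr
    rintro ⟨⟨u, v⟩, i⟩ hz
    rw [zipIdx_getD _ (0, 0), List.mem_map] at hz
    obtain ⟨i', hi', h⟩ := hz
    rw [List.mem_range, ← hedef] at hi'
    have hmem : (u, v) ∈ cmpl (n z) (E0 z) := by
      have h1 := congrArg Prod.fst h
      simp only at h1
      rw [← h1, List.getD_eq_getElem _ _ hi']
      exact List.getElem_mem hi'
    have hii : i' = i := congrArg Prod.snd h
    subst hii
    have h2 := mem_cmpl.mp hmem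
    have e1 : ps m u 0 ≤ P.bdN (n z) e (κ z) := ps_le (by omega) (by omega)
    have e2 : ps m v 0 ≤ P.bdN (n z) e (κ z) := ps_le (by omega) (by omega)
    have e3 : ∀ j : Fin m, ps m i' (1 + j) ≤ P.bdN (n z) e (κ z) :=
      fun j => ps_le (by omega) (by omega)
    show P.gadlN (P.bdN (n z) e (κ z)) ((u, v), i') = _
    unfold Par.gadl Par.gadlN
    simp only [min_eq_left e1, min_eq_left e2, min_eq_left (e3 _)]
  congr 1
  · apply List.map_congr_left
    intro u hu
    rw [List.mem_range] at hu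
    have h1 : ps m u (m + 1) ≤ P.bdN (n z) e (κ z) := ps_le (by omega) (by omega)
    show (2 ^ P.μ) ^ (min (ps m u (m + 1)) (P.bdN (n z) e (κ z))) = _
    rw [min_eq_left h1]
  · apply List.flatMap_congr
    intro r hr
    rw [List.mem_range] at hr
    have h1 : ps m r (m + 2) ≤ P.bdN (n z) e (κ z) := ps_le (by omega) (by omega)
    show P.Bl.map (fun b => b * (2 ^ P.μ) ^ (min (ps m r (m + 2)) (P.bdN (n z) e (κ z)))) = _
    rw [min_eq_left h1]

end Pool.Agent.H2.LFree
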