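import Mathlib
import Pool.Agent.H2.LFree.RedPoly
import Pool.Agent.H2.LFree.Memb

set_option autoImplicit false

namespace Pool.Agent.H2.LFree

open Pool.Agent.H72.NP Pool.Agent.H80.Poly

/-- The theorem when the first two coefficients do not cancel. -/
theorem npComplete_aux (m : ℕ) (a : Fin (m + 3) → ℤ) (ha : ∀ i, a i ≠ 0) (hs : ∑ i, a i ≠ 0)
    (h01 : a 0 + a 1 ≠ 0) (ε : ℚ) (hκ : kappa a < (ε : ℝ)) (hε : ε < 1) :
    NPComplete (BEnc.enc : List ℤ → List Bool) (EpsFreeSubset a ε) := by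
  classical
  -- the block
  obtain ⟨r, ⟨A, hAne, hA0, rfl⟩, hr⟩ : ∃ r ∈ {r : ℝ | ∃ A : Finset ℤ, A.Nonempty ∧ (0 : ℤ) ∉ A ∧
      r = (maxFree a A : ℝ) / (A.card : ℝ)}, r < (ε : ℝ) := by
    apply exists_lt_of_csInf_lt _ hκ
    exact ⟨_, {1}, Finset.singleton_nonempty _, by simp, rfl⟩
  have hcard : (0 : ℝ) < (A.card : ℝ) := by exact_mod_cast hAne.card_pos
  have hε0 : 0 < ε := by
    have : (0 : ℝ) ≤ (maxFree a A : ℝ) / (A.card : ℝ) := by positivity
    have : (0 : ℝ) < (ε : ℝ) := lt_of_le_of_lt this hr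
    exact_mod_cast this
  obtain ⟨p, s, hs0, hps⟩ : ∃ p s : ℕ, 0 < s ∧ ε = (p : ℚ) / s := by
    refine ⟨ε.num.toNat, ε.den, ε.den_pos, ?_⟩
    have h1 : ((ε.num.toNat : ℕ) : ℚ) = (ε.num : ℚ) := by
      have h2 : ((ε.num.toNat : ℕ) : ℤ) = ε.num := Int.toNat_of_nonneg (Rat.num_nonneg.mpr hε0.le)
      exact_mod_cast h2
    rw [h1, Rat.num_div_den]
  have hs' : (0 : ℚ) < (s : ℚ) := by exact_mod_cast hs0
  have hlt : p < s := by
    rw [hps, div_lt_one hs'] at hε
    exact_mod_cast hε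
  obtain ⟨R0, g0, γ, hγ, hg⟩ := gR_affine (k := m + 2) a A
  have hγ2 : γ * s < p * A.card := by
    rw [div_lt_iff₀ hcard] at hr
    have h1 : ((γ : ℕ) : ℝ) < (ε : ℝ) * (A.card : ℝ) := by
      refine lt_of_le_of_lt ?_ hr
      exact_mod_cast hγ
    have h2 : ((γ : ℕ) : ℚ) < ε * (A.card : ℚ) := by exact_mod_cast h1
    rw [hps, div_mul_eq_mul_div, lt_div_iff₀ hs'] at h2
    exact_mod_cast h2
  obtain ⟨μ, hμ⟩ : ∃ μ : ℕ, max ((∑ l, |a l|) * bd a A) (2 * bd a A) < (2 : ℤ) ^ μ :=
    pow_unbounded_of_one_lt _ (by norm_num)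
  have hlist : A.toList.toFinset = A := Finset.toList_toFinset A
  set P : Par m := ⟨a, A.toList, μ, p, s, g0, γ, R0⟩ with hP
  refine ⟨?_, ?_⟩
  · rw [hps]
    exact inNP_eps a hs0
  · apply npHard_of_clique (fun I => P.inst I.1.toNat I.2.1 I.2.2.toNat)
    · have hI : PolyTime (fun I : CliqueInst => I) := PolyTime.id
      exact polyTime_inst P ⟨hI.fst.unatToNat, hI.fst.unat_bd⟩
        ⟨hI.snd.snd.unatToNat, hI.snd.snd.unat_bd⟩ hI.snd.fst
    · intro I hI
      rw [hps]
      apply inst_iff P ha hs h01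
      · exact A.nodup_toList
      · show (0 : ℤ) ∉ A.toList
        rwa [Finset.mem_toList]
      · show (∑ l, |a l|) * bd a A.toList.toFinset < 2 ^ μ
        rw [hlist]
        exact lt_of_le_of_lt (le_max_left _ _) hμ
      · show 2 * bd a A.toList.toFinset < 2 ^ μ
        rw [hlist]
        exact lt_of_le_of_lt (le_max_right _ _) hμ
      · exact hlt
      · show γ * s < p * A.toList.length
        rw [Finset.length_toList]
        exact hγ2
      · intro r
        show gR a A.toList.toFinset (R0 + r) = g0 + γ * r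
        rw [hlist]
        exact hg r
      · exact hI.2.2

lemma val2 (m : ℕ) : ((2 : Fin (m + 3)) : ℕ) = 2 := by
  have : (2 : Fin (m + 3)) = ⟨2, by omega⟩ := rfl
  rw [this]

lemma lfree_perm {k : ℕ} (a : Fin k → ℤ) (σ : Equiv.Perm (Fin k)) (S : Finset ℤ) :
    LFree (fun i => a (σ i)) S ↔ LFree a S := by
  unfold LFree
  constructor
  · intro h x hx h0
    apply h (fun i => x (σ i)) (fun i => hx _)
    rw [← h0]
    exact Equiv.sum_comp σ (fun i => a i * x i)
  · intro h x hx h0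
    apply h (fun i => x (σ.symm i)) (fun i => hx _)
    rw [← h0, ← Equiv.sum_comp σ (fun i => a i * x (σ.symm i))]
    simp

/-- NP-completeness for all non-translation-invariant equations in at least three variables. -/
theorem npComplete_all (k : ℕ) (hk : 3 ≤ k) (a : Fin k → ℤ) (ha : ∀ i, a i ≠ 0)
    (hs : ∑ i, a i ≠ 0) (ε : ℚ) (hκ : kappa a < (ε : ℝ)) (hε : ε < 1) :
    NPComplete (BEnc.enc : List ℤ → List Bool) (EpsFreeSubset a ε) := by
  obtain ⟨m, rfl⟩ : ∃ m, k = m + 3 := ⟨k - 3, by omega⟩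
  obtain ⟨σ, hσ⟩ : ∃ σ : Equiv.Perm (Fin (m + 3)), a (σ 0) + a (σ 1) ≠ 0 := by
    by_cases h1 : a 0 + a 1 ≠ 0
    · exact ⟨Equiv.refl _, h1⟩
    · by_cases h2 : a 0 + a 2 ≠ 0
      · refine ⟨Equiv.swap 1 2, ?_⟩
        rw [Equiv.swap_apply_left, Equiv.swap_apply_of_ne_of_ne]
        · exact h2
        · intro h; simpa using congrArg Fin.val h
        · intro h
          have := congrArg Fin.val h
          rw [val2] at this
          simp at this
      · refine ⟨Equiv.swap 0 2, ?_⟩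
        rw [Equiv.swap_apply_left, Equiv.swap_apply_of_ne_of_ne]
        · push Not at h1 h2
          have := ha 0
          omega
        · intro h; simpa using congrArg Fin.val h
        · intro h
          have := congrArg Fin.val h
          rw [val2] at this
          simp at this
  have hfree : ∀ S, LFree (fun i => a (σ i)) S ↔ LFree a S := lfree_perm a σ
  have hmax : ∀ A, maxFree (fun i => a (σ i)) A = maxFree a A := by
    intro A
    unfold maxFree
    simp only [hfree]
  have hkap : kappa (fun i => a (σ i)) = kappa a := by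
    unfold kappa
    simp only [hmax]
  have heps : EpsFreeSubset (fun i => a (σ i)) ε = EpsFreeSubset a ε := by
    funext l
    unfold EpsFreeSubset
    simp only [hfree]
  rw [← heps]
  apply npComplete_aux m (fun i => a (σ i)) (fun i => ha _) _ hσ ε _ hε
  · rw [Equiv.sum_comp σ a]
    exact hs
  · rw [hkap]
    exact hκ

end Pool.Agent.H2.LFree
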