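import Mathlib
import Pool.Agent.H2.LFree.Main

set_option autoImplicit false

namespace Pool.Agent.H2.LFree.Final

open Pool.Agent.H2.LFree Pool.Agent.H72.NP Pool.Agent.H80.Poly

/-- For every homogeneous linear equation `a_1 x_1 + … + a_k x_k = 0` in `k ≥ 3` variables with nonzero
integer coefficients whose sum is not zero, and every rational `ε` with `κ(L) < ε < 1`, the problem
`ε`-`L`-Free Subset is NP-complete. -/
theorem result (k : ℕ) (hk : 3 ≤ k) (a : Fin k → ℤ) (ha : ∀ i, a i ≠ 0) (hs : ∑ i, a i ≠ 0)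
    (ε : ℚ) (hκ : kappa a < (ε : ℝ)) (hε : ε < 1) :
    NPComplete (BEnc.enc : List ℤ → List Bool) (EpsFreeSubset a ε) :=
  npComplete_all k hk a ha hs ε hκ hε

end Pool.Agent.H2.LFree.Final
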